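import Mathlib

namespace Pool.Agent.Lib.MP_f73bef_pr

open MeasureTheory Set Real

lemma cos_gap {θ s : ℝ} (h1 : θ ≤ π) (hs0 : 0 ≤ s) (hs1 : s ≤ 2 * π) (h : cos s ≤ cos θ) :
    θ ≤ s ∧ s ≤ 2 * π - θ := by
  constructor
  · by_contra hc
    push Not at hc
    have := cos_lt_cos_of_nonneg_of_le_pi hs0 h1 hc
    linarith
  · by_contra hc
    push Not at hc
    have := cos_lt_cos_of_nonneg_of_le_pi (x := 2 * π - s) (by linarith) h1 (by linarith)
    rw [cos_two_pi_sub] at this
    linarith

lemma periodic_window (S : Set ℝ) (hS : MeasurableSet S) (per : ∀ x, x + 2 * π ∈ S ↔ x ∈ S)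
    (a : ℝ) : volume (S ∩ Ioo (-π) π) = volume (S ∩ Ioc a (a + 2 * π)) := by
  have hp : Function.Periodic (S.indicator fun _ => (1 : ℝ)) (2 * π) := by
    intro x
    by_cases hx : x ∈ S
    · rw [indicator_of_mem hx, indicator_of_mem ((per x).mpr hx)]
    · rw [indicator_of_notMem hx, indicator_of_notMem (fun h => hx ((per x).mp h))]
  have h := hp.intervalIntegral_add_eq (-π) a
  have hpi := pi_pos
  rw [intervalIntegral.integral_of_le (by linarith), intervalIntegral.integral_of_le (by linarith),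
    integral_indicator hS, integral_indicator hS] at h
  simp only [integral_const, smul_eq_mul, mul_one, measureReal_def, Measure.restrict_apply,
    MeasurableSet.univ, univ_inter, Measure.restrict_apply hS] at h
  have f1 : volume (S ∩ Ioc (-π) (-π + 2 * π)) ≠ ⊤ :=
    ne_top_of_le_ne_top measure_Ioc_lt_top.ne (measure_mono inter_subset_right)
  have f2 : volume (S ∩ Ioc a (a + 2 * π)) ≠ ⊤ :=
    ne_top_of_le_ne_top measure_Ioc_lt_top.ne (measure_mono inter_subset_right)
  rw [← (ENNReal.toReal_eq_toReal_iff' f1 f2).mp h]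
  have e : -π + 2 * π = π := by ring
  rw [e]
  exact measure_congr (ae_eq_set_inter (ae_eq_refl _) Ioo_ae_eq_Ioc)

lemma circle (S S' : Set ℝ) (hS : MeasurableSet S) (hS' : MeasurableSet S')
    (per : ∀ x, x + 2 * π ∈ S ↔ x ∈ S) (per' : ∀ x, x + 2 * π ∈ S' ↔ x ∈ S')
    (a b θ : ℝ) (h0 : 0 < θ) (h1 : θ ≤ π)
    (h : ∀ x ∈ insert a S, ∀ y ∈ insert b S', cos (x - y) ≤ cos θ) :
    volume (S ∩ Ioo (-π) π) + volume (S' ∩ Ioo (-π) π) ≤ ENNReal.ofReal (2 * π - 2 * θ) := by
  rw [periodic_window S hS per a, periodic_window S' hS' per' a]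
  have hpi := pi_pos
  have h2pi : 0 < 2 * π := by linarith
  set b' := toIocMod h2pi a b with hb'
  have hb'm : b' ∈ Ioc a (a + 2 * π) := toIocMod_mem_Ioc h2pi a b
  have hcos : ∀ x, cos (x - b') = cos (x - b) := by
    intro x
    have : x - b' = x - b + (toIocDiv h2pi a b : ℤ) * (2 * π) := by
      rw [hb', toIocMod]; simp only [zsmul_eq_mul]; ring
    rw [this, cos_add_int_mul_two_pi]
  set E := insert b' (S' ∩ Ioc a (a + 2 * π)) with hE
  have hEw : ∀ y ∈ E, y ∈ Ioc a (a + 2 * π) := by
    rintro y (rfl | hy)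
    · exact hb'm
    · exact hy.2
  have hEc : ∀ x ∈ insert a S, ∀ y ∈ E, cos (x - y) ≤ cos θ := by
    rintro x hx y (rfl | hy)
    · rw [hcos]; exact h x hx b (mem_insert _ _)
    · exact h x hx y (mem_insert_of_mem _ hy.1)
  have hEa : ∀ y ∈ E, a + θ ≤ y ∧ y ≤ a + 2 * π - θ := by
    intro y hy
    have := hEc a (mem_insert _ _) y hy
    rw [← cos_neg, neg_sub] at this
    have hw := hEw y hy
    have := cos_gap h1 (by linarith [hw.1]) (by linarith [hw.2]) this
    constructor <;> linarith [this.1, this.2]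
  have hne : E.Nonempty := ⟨b', mem_insert _ _⟩
  have hbb : BddBelow E := ⟨a + θ, fun y hy => (hEa y hy).1⟩
  have hba : BddAbove E := ⟨a + 2 * π - θ, fun y hy => (hEa y hy).2⟩
  have lo1 : a + θ ≤ sInf E := le_csInf hne fun y hy => (hEa y hy).1
  have hi1 : sSup E ≤ a + 2 * π - θ := csSup_le hne fun y hy => (hEa y hy).2
  have lohi : sInf E ≤ sSup E := csInf_le_csSup hne hbb hba
  have sub1 : S ∩ Ioc a (a + 2 * π) ⊆
      Icc a (sInf E - θ) ∪ (Icc (sInf E) (sSup E) \ S') ∪ Icc (sSup E + θ) (a + 2 * π) := by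
    rintro x ⟨hx, hw⟩
    have hx' : x ∈ insert a S := mem_insert_of_mem _ hx
    by_cases c1 : x < sInf E
    · left; left
      refine ⟨hw.1.le, ?_⟩
      have : x + θ ≤ sInf E := by
        refine le_csInf hne fun y hy => ?_
        have k := hEc x hx' y hy
        rw [← cos_neg, neg_sub] at k
        have := csInf_le hbb hy
        have := cos_gap h1 (by linarith) (by linarith [(hEw y hy).2, hw.1]) k
        linarith [this.1]
      linarith
    by_cases c2 : sSup E < x
    · right
      refine ⟨?_, hw.2⟩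
      have : sSup E ≤ x - θ := by
        refine csSup_le hne fun y hy => ?_
        have k := hEc x hx' y hy
        have := le_csSup hba hy
        have := cos_gap h1 (by linarith) (by linarith [(hEw y hy).1, hw.2]) k
        linarith [this.1]
      linarith
    · left; right
      refine ⟨⟨not_lt.mp c1, not_lt.mp c2⟩, fun hx2 => ?_⟩
      have k := h x hx' x (mem_insert_of_mem _ hx2)
      rw [sub_self] at k
      have := cos_gap h1 le_rfl h2pi.le k
      linarith [this.1]
  have sub2 : S' ∩ Ioc a (a + 2 * π) ⊆ Icc (sInf E) (sSup E) ∩ S' := by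
    intro y hy
    have hy' : y ∈ E := mem_insert_of_mem _ hy
    exact ⟨⟨csInf_le hbb hy', le_csSup hba hy'⟩, hy.1⟩
  calc volume (S ∩ Ioc a (a + 2 * π)) + volume (S' ∩ Ioc a (a + 2 * π))
      ≤ (volume (Icc a (sInf E - θ)) + volume (Icc (sInf E) (sSup E) \ S')
          + volume (Icc (sSup E + θ) (a + 2 * π))) + volume (Icc (sInf E) (sSup E) ∩ S') := by
        refine add_le_add ((measure_mono sub1).trans ?_) (measure_mono sub2)
        exact (measure_union_le _ _).trans (add_le_add_left (measure_union_le _ _) _)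
    _ = volume (Icc a (sInf E - θ)) + volume (Icc (sSup E + θ) (a + 2 * π))
          + (volume (Icc (sInf E) (sSup E) ∩ S') + volume (Icc (sInf E) (sSup E) \ S')) := by
        ring
    _ = ENNReal.ofReal (2 * π - 2 * θ) := by
        rw [measure_inter_add_sdiff _ hS', volume_Icc, volume_Icc, volume_Icc,
          ← ENNReal.ofReal_add (by linarith) (by linarith),
          ← ENNReal.ofReal_add (by linarith) (by linarith)]
        congr 1
        ring

end Pool.Agent.Lib.MP_f73bef_pr
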