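import Pool.Agent.Lib.MP_f73bef_pr.Planar

namespace Pool.Agent.Lib.MP_f73bef_pr

open MeasureTheory Set Real Pointwise

noncomputable def sig : Measure S2 := (volume : Measure E3).toSphere

lemma sig_apply {s : Set S2} (hs : MeasurableSet s) :
    sig s = 3 * volume (Ioo (0 : ℝ) 1 • ((↑) '' s : Set E3)) := by
  rw [sig, Measure.toSphere_apply' _ hs]
  simp

lemma sig_univ : sig univ = ENNReal.ofReal (4 * π) := by
  rw [sig, Measure.toSphere_apply_univ, EuclideanSpace.volume_ball_fin_three]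
  simp only [finrank_euclideanSpace, Fintype.card_fin, ENNReal.ofReal_one, one_pow, one_mul]
  rw [← ENNReal.ofReal_natCast, ← ENNReal.ofReal_mul (by positivity)]
  congr 1
  push_cast
  ring

lemma unif_apply (s : Set S2) : unif E3 s = ENNReal.ofReal (1 / (4 * π)) * sig s := by
  have : unif E3 s = (sig univ)⁻¹ * sig s := rfl
  rw [this, sig_univ, one_div, ENNReal.ofReal_inv_of_pos (by positivity)]

instance : IsProbabilityMeasure (unif E3) := ⟨by
  rw [unif_apply, sig_univ, ← ENNReal.ofReal_mul (by positivity)]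
  have := pi_pos
  rw [one_div, inv_mul_cancel₀ (by positivity), ENNReal.ofReal_one]⟩

noncomputable def rot (R : E3 ≃ₗᵢ[ℝ] E3) (y : S2) : S2 := ⟨R y.1, by simp⟩

lemma rot_cont (R : E3 ≃ₗᵢ[ℝ] E3) : Continuous (rot R) :=
  (R.continuous.comp continuous_subtype_val).subtype_mk _

lemma unif_rot (R : E3 ≃ₗᵢ[ℝ] E3) {s : Set S2} (hs : MeasurableSet s) :
    unif E3 (rot R ⁻¹' s) = unif E3 s := by
  rw [unif_apply, unif_apply, sig_apply hs, sig_apply ((rot_cont R).measurable hs)]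
  congr 2
  rw [← R.measurePreserving.measure_preimage_emb R.toHomeomorph.measurableEmbedding
    (Ioo (0 : ℝ) 1 • ((↑) '' s : Set E3))]
  congr 1
  ext x
  constructor
  · rintro ⟨r, hr, _, ⟨y, hy, rfl⟩, rfl⟩
    exact ⟨r, hr, _, ⟨_, hy, rfl⟩, by simp [rot]⟩
  · rintro ⟨r, hr, _, ⟨y, hy, rfl⟩, h⟩
    refine ⟨r, hr, _, ⟨rot R.symm y, ?_, rfl⟩, ?_⟩
    · have : rot R (rot R.symm y) = y := Subtype.ext (by simp [rot])
      rw [mem_preimage, this]; exact hy
    · apply R.injective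
      simpa [rot] using h

noncomputable def gn (l : ℝ) (x : E3) : ℝ × ℝ := (x 0 / (l * x 2), x 1 / (l * x 2))

lemma gn_meas (l : ℝ) : Measurable (gn l) := by
  unfold gn; fun_prop

lemma gn_smul (l : ℝ) (x : E3) {r : ℝ} (hr : r ≠ 0) : gn l (r • x) = gn l x := by
  simp only [gn, PiLp.smul_apply, smul_eq_mul]
  rw [mul_left_comm, mul_div_mul_left _ _ hr, mul_div_mul_left _ _ hr]

def cone (l h : ℝ) (T : Set (ℝ × ℝ)) : Set E3 := {x | x 2 ∈ Ioo 0 h ∧ gn l x ∈ T}

def gam (l : ℝ) (T : Set (ℝ × ℝ)) : Set S2 := {y | 0 < y.1 2 ∧ gn l y.1 ∈ T}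

lemma gam_meas (l : ℝ) {T : Set (ℝ × ℝ)} (hT : MeasurableSet T) : MeasurableSet (gam l T) := by
  refine MeasurableSet.inter (measurableSet_lt (f := fun _ => (0 : ℝ))
    (g := fun y : S2 => y.1 2) measurable_const (by fun_prop)) ?_
  exact ((gn_meas l).comp measurable_subtype_coe) hT

lemma vol_cone {l h : ℝ} (hl : 0 < l) (hh : 0 ≤ h) {T : Set (ℝ × ℝ)} (hT : MeasurableSet T) :
    3 * volume (cone l h T) = ENNReal.ofReal (l ^ 2 * h ^ 3) * volume T := by
  have mp : MeasurePreserving (fun x : E3 => (x 2, (x 0, x 1))) volume volume := by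
    have h1 := PiLp.volume_preserving_ofLp (Fin 3)
    have h2 := volume_preserving_piFinSuccAbove (fun _ : Fin 3 => ℝ) 2
    have h3 := (MeasurePreserving.id (volume : Measure ℝ)).prod (volume_preserving_finTwoArrow ℝ)
    exact (h3.comp h2).comp h1
  let U : Set (ℝ × ℝ × ℝ) := {p | p.1 ∈ Ioo 0 h ∧ (p.2.1 / (l * p.1), p.2.2 / (l * p.1)) ∈ T}
  have mU : MeasurableSet U := by
    refine MeasurableSet.inter (measurable_fst measurableSet_Ioo) ?_
    exact (by fun_prop : Measurable fun p : ℝ × ℝ × ℝ =>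
      (p.2.1 / (l * p.1), p.2.2 / (l * p.1))) hT
  have e : cone l h T = (fun x : E3 => (x 2, (x 0, x 1))) ⁻¹' U := rfl
  rw [e, mp.measure_preimage mU.nullMeasurableSet, Measure.volume_eq_prod, Measure.prod_apply mU]
  have e2 : (fun z => volume (Prod.mk z ⁻¹' U))
      = (Ioo 0 h).indicator fun z => ENNReal.ofReal (l ^ 2 * z ^ 2) * volume T := by
    funext z
    by_cases hz : z ∈ Ioo 0 h
    · rw [indicator_of_mem hz]
      have hlz : (l * z)⁻¹ ≠ 0 := inv_ne_zero (mul_pos hl hz.1).ne'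
      have : Prod.mk z ⁻¹' U = ((l * z)⁻¹ • ·) ⁻¹' T := by
        ext p
        simp only [U, mem_preimage, mem_ofPred_eq, hz, true_and, div_eq_inv_mul]
        rfl
      rw [this, Measure.addHaar_preimage_smul _ hlz]
      congr 2
      simp only [Module.finrank_prod, Module.finrank_self, inv_pow, inv_inv]
      rw [abs_of_nonneg (pow_nonneg (mul_pos hl hz.1).le _)]
      ring
    · rw [indicator_of_notMem hz]
      have : Prod.mk z ⁻¹' U = ∅ := eq_empty_of_forall_notMem fun p hp => hz hp.1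
      rw [this, measure_empty]
  rw [e2, lintegral_indicator measurableSet_Ioo, lintegral_mul_const _ (by fun_prop),
    ← ofReal_integral_eq_lintegral_ofReal, ← integral_Ioc_eq_integral_Ioo,
    ← intervalIntegral.integral_of_le hh, ← mul_assoc]
  · congr 1
    rw [intervalIntegral.integral_const_mul, integral_pow, ← ENNReal.ofReal_ofNat,
      ← ENNReal.ofReal_mul (by positivity)]
    congr 1
    norm_num
    ring
  · exact ((by fun_prop : Continuous fun y : ℝ => l ^ 2 * y ^ 2).integrableOn_Icc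
      (a := 0) (b := h)).mono_set Ioo_subset_Icc_self
  · exact Filter.Eventually.of_forall fun y => by positivity

lemma gam_upper {l : ℝ} (hl : 0 < l) {T : Set (ℝ × ℝ)} (hT : MeasurableSet T) :
    unif E3 (gam l T) ≤ ENNReal.ofReal (l ^ 2 / (4 * π)) * volume T := by
  rw [unif_apply, sig_apply (gam_meas l hT)]
  have sub : Ioo (0 : ℝ) 1 • ((↑) '' gam l T : Set E3) ⊆ cone l 1 T := by
    rintro _ ⟨r, hr, _, ⟨y, hy, rfl⟩, rfl⟩
    refine ⟨⟨?_, ?_⟩, ?_⟩
    · simpa using mul_pos hr.1 hy.1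
    · have := sph_sq y
      have h1 : y.1 2 ≤ 1 := by nlinarith [sq_nonneg (y.1 0), sq_nonneg (y.1 1)]
      have : r * y.1 2 < 1 := by nlinarith [hr.1, hr.2, hy.1]
      simpa using this
    · show gn l (r • y.1) ∈ T
      rw [gn_smul _ _ hr.1.ne']; exact hy.2
  calc _ ≤ ENNReal.ofReal (1 / (4 * π)) * (3 * volume (cone l 1 T)) := by gcongr
    _ = _ := by
      rw [vol_cone hl zero_le_one hT, ← mul_assoc, ← ENNReal.ofReal_mul (by positivity)]
      congr 2
      ring

lemma gam_lower {l h : ℝ} (hl : 0 < l) (hh : 0 ≤ h) (hlh : h ^ 2 * (1 + l ^ 2) ≤ 1)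
    {T : Set (ℝ × ℝ)} (hT : MeasurableSet T) (hT1 : ∀ p ∈ T, nsq p < 1) :
    ENNReal.ofReal (l ^ 2 * h ^ 3 / (4 * π)) * volume T ≤ unif E3 (gam l T) := by
  rw [unif_apply, sig_apply (gam_meas l hT)]
  have sub : cone l h T ⊆ Ioo (0 : ℝ) 1 • ((↑) '' gam l T : Set E3) := by
    rintro x ⟨⟨h0, h1⟩, hx⟩
    have hx0 : x ≠ 0 := by
      rintro rfl
      simp at h0
    have n0 : 0 < ‖x‖ := norm_pos_iff.mpr hx0
    have n1 : ‖x‖ < 1 := by
      have e := EuclideanSpace.real_norm_sq_eq x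
      rw [Fin.sum_univ_three] at e
      have k := hT1 _ hx
      simp only [nsq, gn, div_pow] at k
      rw [← add_div, div_lt_one (by positivity)] at k
      have : x 2 ^ 2 < h ^ 2 := pow_lt_pow_left₀ h1 h0.le two_ne_zero
      have : ‖x‖ ^ 2 < 1 := by nlinarith [sq_nonneg l]
      nlinarith
    refine ⟨‖x‖, ⟨n0, n1⟩, _, ⟨nrm x hx0, ⟨?_, ?_⟩, rfl⟩, ?_⟩
    · simpa [nrm] using mul_pos (inv_pos.mpr n0) h0
    · show gn l (‖x‖⁻¹ • x) ∈ T
      rw [gn_smul _ _ (inv_pos.mpr n0).ne']; exact hx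
    · simp [nrm, smul_smul, n0.ne']
  calc _ = ENNReal.ofReal (1 / (4 * π)) * (3 * volume (cone l h T)) := by
        rw [vol_cone hl hh hT, ← mul_assoc, ← ENNReal.ofReal_mul (by positivity)]
        congr 2
        ring
    _ ≤ _ := by gcongr

lemma exists_rot (q : S2) : ∃ R : E3 ≃ₗᵢ[ℝ] E3, R q.1 = !₂[0, 0, 1] :=
  ⟨_, Submodule.reflection_sub (by
    simp [EuclideanSpace.norm_eq, Fin.sum_univ_three])⟩

end Pool.Agent.Lib.MP_f73bef_pr
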