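import Mathlib

namespace Pool.Agent.Lib.MP_f73bef_pr

open MeasureTheory

/-- The uniform probability measure on the unit sphere of the Euclidean space `E`:
normalised surface measure. -/
noncomputable def unif (E : Type) [NormedAddCommGroup E] [InnerProductSpace ℝ E]
    [FiniteDimensional ℝ E] [MeasurableSpace E] [BorelSpace E] :
    Measure (Metric.sphere (0 : E) 1) :=
  ((volume : Measure E).toSphere Set.univ)⁻¹ • (volume : Measure E).toSphere

/-- The Borsuk graph on the points `X` of the unit sphere: `i ≠ j` are adjacent iff the geodesic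
distance (angle) of `X i` and `X j` exceeds `π - α`. -/
noncomputable def borsuk {E : Type} [NormedAddCommGroup E] [InnerProductSpace ℝ E] {n : ℕ}
    (X : Fin n → Metric.sphere (0 : E) 1) (α : ℝ) : SimpleGraph (Fin n) :=
  SimpleGraph.fromRel fun i j =>
    Real.pi - α < InnerProductGeometry.angle (X i).1 (X j).1

/-- Geometric realisation of the neighbourhood complex `N(H)`: the points of the standard simplex
whose support has a common neighbour in `H`. -/
def nbhdComplex {n : ℕ} (H : SimpleGraph (Fin n)) : Set (Fin n → ℝ) :=
  {w | w ∈ stdSimplex ℝ (Fin n) ∧ ∃ b, ∀ v, w v ≠ 0 → H.Adj v b}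

/-- Property `P_k`: chromatic number larger than `k`. -/
def PropP (k : ℕ) {n : ℕ} (G : SimpleGraph (Fin n)) : Prop := ¬ G.Colorable k

/-- Some subgraph `H` has `N(H)` homotopy equivalent to `S` (property `Q_k` for `S = S^(k-1)`). -/
def PropQ (S : Type) [TopologicalSpace S] {n : ℕ} (G : SimpleGraph (Fin n)) : Prop :=
  ∃ H ≤ G, Nonempty (ContinuousMap.HomotopyEquiv (nbhdComplex H) S)

/-- Hitting angle of a graph property in the Borsuk process on the points `X`: the infimum of the
`α ∈ [0, π]` at which the graph has the property (`π` if there is none). -/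
noncomputable def hitAngle {E : Type} [NormedAddCommGroup E] [InnerProductSpace ℝ E] {n : ℕ}
    (P : SimpleGraph (Fin n) → Prop) (X : Fin n → Metric.sphere (0 : E) 1) : ℝ :=
  sInf ({α | α ∈ Set.Icc 0 Real.pi ∧ P (borsuk X α)} ∪ {Real.pi})

end Pool.Agent.Lib.MP_f73bef_pr
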