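import Pool.Agent.Lib.MP_f73bef_pr.Cone

namespace Pool.Agent.Lib.MP_f73bef_pr

open MeasureTheory Set Real

noncomputable def lift (l : ℝ) (p : ℝ × ℝ) : E3 := !₂[l * p.1, l * p.2, 1]

lemma lift_ne (l : ℝ) (p : ℝ × ℝ) : lift l p ≠ 0 := by
  intro h
  have h2 := congrArg (fun v : E3 => v 2) h
  simp [lift] at h2

lemma lift_norm (l : ℝ) (p : ℝ × ℝ) : ‖lift l p‖ ^ 2 = l ^ 2 * nsq p + 1 := by
  rw [EuclideanSpace.real_norm_sq_eq, Fin.sum_univ_three]
  simp [lift, nsq]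
  ring

lemma lift_one_le (l : ℝ) (p : ℝ × ℝ) : 1 ≤ ‖lift l p‖ := by
  have h := lift_norm l p
  have : 0 ≤ l ^ 2 * nsq p := by unfold nsq; positivity
  nlinarith [norm_nonneg (lift l p)]

noncomputable def nu (l : ℝ) (p : ℝ × ℝ) : S2 := nrm (lift l p) (lift_ne l p)

lemma nu_cont (l : ℝ) : Continuous (nu l) := by
  refine continuous_nrm _ ?_ _
  unfold lift
  refine (PiLp.continuous_toLp 2 _).comp ?_
  refine continuous_pi fun i => ?_
  fin_cases i <;> simp <;> fun_prop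

lemma nu_two (l : ℝ) (p : ℝ × ℝ) : (nu l p).1 2 = ‖lift l p‖⁻¹ := by
  simp only [nu, nrm, PiLp.smul_apply, smul_eq_mul]
  simp [lift]

lemma nu_gn {l : ℝ} (hl : 0 < l) (y : S2) (hy : 0 < y.1 2) : nu l (gn l y.1) = y := by
  have e : lift l (gn l y.1) = (y.1 2)⁻¹ • y.1 := by
    ext i
    fin_cases i <;> simp [lift, gn] <;> field_simp
  apply Subtype.ext
  simp only [nu, nrm, e, norm_smul, norm_eq_of_mem_sphere y, mul_one, smul_smul]
  rw [Real.norm_eq_abs, abs_of_pos (inv_pos.mpr hy), inv_inv, mul_inv_cancel₀ hy.ne', one_smul]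

lemma nrm_lip (u v : E3) (hu : 1 ≤ ‖u‖) (hv : 1 ≤ ‖v‖) :
    ‖‖u‖⁻¹ • u - ‖v‖⁻¹ • v‖ ^ 2 ≤ ‖u - v‖ ^ 2 := by
  have u0 : 0 < ‖u‖ := by linarith
  have v0 : 0 < ‖v‖ := by linarith
  rw [norm_sub_sq_real, norm_sub_sq_real, norm_smul, norm_smul, inner_smul_left, inner_smul_right]
  simp only [norm_inv, norm_norm, inv_mul_cancel₀ u0.ne', inv_mul_cancel₀ v0.ne', conj_trivial]
  have cs := real_inner_le_norm u v
  obtain ⟨c, hc⟩ : ∃ c, c = ‖u‖⁻¹ * (‖v‖⁻¹ * inner ℝ u v) := ⟨_, rfl⟩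
  have e : inner ℝ u v = ‖u‖ * ‖v‖ * c := by rw [hc]; field_simp
  rw [← hc, e]
  have c1 : c ≤ 1 := by
    rw [e] at cs
    exact (mul_le_iff_le_one_right (mul_pos u0 v0)).mp cs
  have : 1 ≤ ‖u‖ * ‖v‖ := one_le_mul_of_one_le_of_one_le hu hv
  nlinarith [sq_nonneg (‖u‖ - ‖v‖), mul_nonneg (sub_nonneg.mpr this) (sub_nonneg.mpr c1)]

lemma nu_lip (l : ℝ) (p q : ℝ × ℝ) : ‖(nu l p).1 - (nu l q).1‖ ^ 2 ≤ l ^ 2 * nsq (p - q) := by
  refine (nrm_lip _ _ (lift_one_le l p) (lift_one_le l q)).trans (le_of_eq ?_)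
  rw [EuclideanSpace.real_norm_sq_eq, Fin.sum_univ_three]
  simp [lift, nsq]
  ring

noncomputable def pole : E3 := !₂[0, 0, 1]

lemma nu_zero (l : ℝ) : (nu l 0).1 = pole := by
  have e : lift l 0 = pole := by simp [lift, pole]
  have n : ‖pole‖ = 1 := by simp [pole, EuclideanSpace.norm_eq, Fin.sum_univ_three]
  simp [nu, nrm, e, n]

noncomputable def hgt (l c : ℝ) : ℝ := (1 / (max c (1 / √(1 + l ^ 2))) ^ 2 - 1) / l ^ 2

lemma hgt_cont (l : ℝ) : Continuous (hgt l) := by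
  unfold hgt
  have : 0 < 1 / √(1 + l ^ 2) := by positivity
  refine ((Continuous.div continuous_const (by fun_prop) fun c => ?_).sub
    continuous_const).div_const _
  exact (pow_pos (lt_max_of_lt_right this) 2).ne'

lemma hgt_le {l : ℝ} (hl : 0 < l) (c : ℝ) : hgt l c ≤ 1 := by
  have h0 : 0 < 1 / √(1 + l ^ 2) := by positivity
  have h1 : (1 / √(1 + l ^ 2)) ^ 2 = 1 / (1 + l ^ 2) := by
    rw [div_pow, sq_sqrt (by positivity), one_pow]
  have h2 : 1 / (1 + l ^ 2) ≤ (max c (1 / √(1 + l ^ 2))) ^ 2 := by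
    rw [← h1]; exact pow_le_pow_left₀ h0.le (le_max_right _ _) 2
  have h3 := one_div_le_one_div_of_le (by positivity) h2
  rw [one_div_one_div] at h3
  rw [hgt, div_le_one (by positivity)]
  linarith

lemma hgt_nonneg {l c : ℝ} (hc : c ≤ 1) : 0 ≤ hgt l c := by
  have h0 : 0 < 1 / √(1 + l ^ 2) := by positivity
  have h1 : 1 / √(1 + l ^ 2) ≤ 1 := by
    rw [div_le_one (by positivity)]
    exact one_le_sqrt.mpr (by nlinarith [sq_nonneg l])
  have h2 : 0 < max c (1 / √(1 + l ^ 2)) := lt_max_of_lt_right h0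
  have h3 : max c (1 / √(1 + l ^ 2)) ≤ 1 := max_le hc h1
  refine div_nonneg ?_ (sq_nonneg _)
  rw [sub_nonneg, le_div_iff₀ (by positivity), one_mul]
  exact pow_le_one₀ h2.le h3

lemma hgt_low {l c : ℝ} (hl : 0 < l) (p : ℝ × ℝ) (h : (nu l p).1 2 ≤ c) : hgt l c ≤ nsq p := by
  rw [nu_two] at h
  have h1 := lift_one_le l p
  have h2 : ‖lift l p‖⁻¹ ^ 2 ≤ (max c (1 / √(1 + l ^ 2))) ^ 2 :=
    pow_le_pow_left₀ (by positivity) (le_max_of_le_left h) 2
  have h3 := one_div_le_one_div_of_le (by positivity) h2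
  rw [inv_pow, one_div (‖lift l p‖ ^ 2)⁻¹, inv_inv, lift_norm] at h3
  rw [hgt, div_le_iff₀ (by positivity)]
  linarith

lemma hgt_att {l : ℝ} (hl : 0 < l) (y : S2) (h : hgt l (y.1 2) < 1) :
    ∃ p, nu l p = y ∧ nsq p = hgt l (y.1 2) := by
  have h0 : 0 < 1 / √(1 + l ^ 2) := by positivity
  have h1 : (1 / √(1 + l ^ 2)) ^ 2 = 1 / (1 + l ^ 2) := by
    rw [div_pow, sq_sqrt (by positivity), one_pow]
  have h2 : 1 / √(1 + l ^ 2) < y.1 2 := by
    by_contra hc
    rw [hgt, max_eq_right (not_lt.mp hc), h1, one_div_one_div, add_sub_cancel_left,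
      div_self (by positivity)] at h
    exact lt_irrefl _ h
  have y0 : 0 < y.1 2 := h0.trans h2
  refine ⟨gn l y.1, nu_gn hl y y0, ?_⟩
  rw [hgt, max_eq_left h2.le]
  have := sph_sq y
  simp only [nsq, gn]
  field_simp
  linarith

lemma hole_pole (C : Fin 3 → Set S2) (hC : ∀ i, IsClosed (C i)) {l h t : ℝ} (hl : 0 < l)
    (hh : 0 ≤ h) (hlh : h ^ 2 * (1 + l ^ 2) ≤ 1)
    (hd : ∀ i, ∀ y ∈ C i, ∀ y' ∈ C i, l ≤ ‖y.1 + y'.1‖) (u v : Fin 3 → S2)
    (hu : ∀ i, u i ∈ C i) (hv : ∀ i, v i ∈ C i) (hu2 : ∀ i, ∀ y ∈ C i, y.1 2 ≤ (u i).1 2)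
    (hv2 : ∀ i, ∀ y ∈ C i, (v i).1 2 ≤ y.1 2) (ht : 0 ≤ t)
    (hb : ∀ i, hgt l ((u i).1 2) - hgt l ((-v i).1 2) = t) :
    ENNReal.ofReal (l ^ 2 * h ^ 3 / (4 * π) * (3 * √3 / 2)) ≤
      unif E3 {y | (∀ i, y ∉ C i) ∧ (‖y.1 - pole‖ ≤ l ∨ ‖y.1 + pole‖ ≤ l)} := by
  let A : Fin 3 → Set (ℝ × ℝ) := fun i => nu l ⁻¹' C i
  let B : Fin 3 → Set (ℝ × ℝ) := fun i => (fun p => -nu l p) ⁻¹' C i
  have mA : ∀ i, MeasurableSet (A i) := fun i => (nu_cont l).measurable (hC i).measurableSet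
  have mB : ∀ i, MeasurableSet (B i) := fun i => (nu_cont l).neg.measurable (hC i).measurableSet
  have le1 : ∀ y : S2, y.1 2 ≤ 1 := fun y => by
    nlinarith [sph_sq y, sq_nonneg (y.1 0), sq_nonneg (y.1 1)]
  have P := planar A B mA mB (fun i => hgt l ((u i).1 2)) (fun i => hgt l ((-v i).1 2)) t ht hb
    (fun i => hgt_nonneg (le1 _)) (fun i => hgt_le hl _)
    (fun i p hp => hgt_low hl p (hu2 i _ hp))
    (fun i hi => by
      obtain ⟨p, h1, h2⟩ := hgt_att hl _ hi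
      exact ⟨p, show nu l p ∈ C i from h1 ▸ hu i, h2⟩)
    (fun i p hp => hgt_low hl p (by
      have := hv2 i _ hp
      simp only [coe_neg_sphere, PiLp.neg_apply] at this ⊢
      linarith))
    (fun i hi => by
      obtain ⟨p, h1, h2⟩ := hgt_att hl _ hi
      exact ⟨p, show -nu l p ∈ C i by rw [h1, neg_neg]; exact hv i, h2⟩)
    (fun i p hp q hq => by
      have h1 := hd i _ hp _ hq
      rw [coe_neg_sphere, ← sub_eq_add_neg] at h1
      have h2 := nu_lip l p q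
      have h3 : l ^ 2 * 1 ≤ l ^ 2 * nsq (p - q) := by
        have := pow_le_pow_left₀ hl.le h1 2
        linarith
      exact le_of_mul_le_mul_left h3 (by positivity))
  have mA' : MeasurableSet ({p | nsq p < 1} \ ⋃ i, A i) := nsq_meas.diff (MeasurableSet.iUnion mA)
  have mB' : MeasurableSet ({p | nsq p < 1} \ ⋃ i, B i) := nsq_meas.diff (MeasurableSet.iUnion mB)
  have gA := gam_lower hl hh hlh mA' fun p hp => hp.1
  have gB := gam_lower hl hh hlh mB' fun p hp => hp.1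
  rw [← unif_rot (LinearIsometryEquiv.neg ℝ) (gam_meas l mB')] at gB
  have near : ∀ y : S2, 0 < y.1 2 → nsq (gn l y.1) < 1 → ‖y.1 - pole‖ ≤ l := by
    intro y h1 h2
    have := nu_lip l (gn l y.1) 0
    rw [nu_gn hl y h1, nu_zero, sub_zero] at this
    refine (pow_le_pow_iff_left₀ (norm_nonneg _) hl.le two_ne_zero).mp (this.trans ?_)
    exact mul_le_of_le_one_right (sq_nonneg _) h2.le
  rw [ENNReal.ofReal_mul (by positivity)]
  refine (mul_le_mul_right P _).trans ?_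
  rw [mul_add]
  refine (add_le_add gA gB).trans ?_
  rw [← measure_union _ ((rot_cont _).measurable (gam_meas l mB'))]
  · refine measure_mono ?_
    rintro y (hy | hy)
    · refine ⟨fun i hi => hy.2.2 (mem_iUnion.mpr ⟨i, ?_⟩), Or.inl (near y hy.1 hy.2.1)⟩
      show nu l _ ∈ C i
      rw [nu_gn hl y hy.1]; exact hi
    · have e : rot (LinearIsometryEquiv.neg ℝ) y = -y := rfl
      rw [mem_preimage, e] at hy
      refine ⟨fun i hi => hy.2.2 (mem_iUnion.mpr ⟨i, ?_⟩), Or.inr ?_⟩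
      · show -nu l _ ∈ C i
        rw [nu_gn hl _ hy.1, neg_neg]; exact hi
      · have := near _ hy.1 hy.2.1
        rwa [coe_neg_sphere, ← norm_neg, neg_sub, sub_neg_eq_add, add_comm pole] at this
  · rw [disjoint_left]
    intro y h1 h2
    have a1 : 0 < y.1 2 := h1.1
    have a2 : 0 < -y.1 2 := h2.1
    linarith

lemma dist_sph (x y : S2) : dist x y ^ 2 = 2 - 2 * inner ℝ x.1 y.1 := by
  rw [Subtype.dist_eq, dist_eq_norm, norm_sub_sq_real, norm_eq_of_mem_sphere x,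
    norm_eq_of_mem_sphere y]
  ring

theorem hole (C : Fin 3 → Set S2) (hC : ∀ i, IsClosed (C i)) (hne : ∀ i, (C i).Nonempty)
    {l h : ℝ} (hl : 0 < l) (hh : 0 ≤ h) (hlh : h ^ 2 * (1 + l ^ 2) ≤ 1)
    (hd : ∀ i, ∀ y ∈ C i, ∀ y' ∈ C i, l ≤ ‖y.1 + y'.1‖) :
    ∃ q : S2, ENNReal.ofReal (l ^ 2 * h ^ 3 / (4 * π) * (3 * √3 / 2)) ≤
      unif E3 {y | (∀ i, y ∉ C i) ∧ (‖y.1 - q.1‖ ≤ l ∨ ‖y.1 + q.1‖ ≤ l)} := by
  let m : Fin 3 → S2 → ℝ := fun i q => 1 - Metric.infDist q (C i) ^ 2 / 2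
  have mc : ∀ i, Continuous (m i) := fun i =>
    continuous_const.sub (((Metric.continuous_infDist_pt _).pow 2).div_const _)
  have ma : ∀ i q, ∃ u ∈ C i, inner ℝ q.1 u.1 = m i q ∧ ∀ y ∈ C i, inner ℝ q.1 y.1 ≤ m i q := by
    intro i q
    obtain ⟨u, hu, e⟩ := (hC i).isCompact.exists_infDist_eq_dist (hne i) q
    refine ⟨u, hu, by simp only [m, e, dist_sph]; ring, fun y hy => ?_⟩
    have := pow_le_pow_left₀ Metric.infDist_nonneg (Metric.infDist_le_dist_of_mem (x := q) hy) 2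
    rw [dist_sph] at this
    simp only [m]
    linarith
  let F : Fin 3 → S2 → ℝ := fun i q => hgt l (m i q) - hgt l (m i (-q))
  have Fc : ∀ i, Continuous (F i) := fun i =>
    ((hgt_cont l).comp (mc i)).sub ((hgt_cont l).comp ((mc i).comp continuous_neg))
  have Fo : ∀ i q, F i (-q) = -F i q := fun i q => by simp [F]
  obtain ⟨q0, hq0⟩ := borsuk_ulam
    (fun q => ((F 0 q - F 2 q : ℝ) : ℂ) + ((F 1 q - F 2 q : ℝ) : ℂ) * Complex.I)
    (by fun_prop) (fun q => by simp only [Fo]; push_cast; ring)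
  have e0 : F 0 q0 = F 2 q0 := by
    have := congrArg Complex.re hq0
    simp at this
    linarith
  have e1 : F 1 q0 = F 2 q0 := by
    have := congrArg Complex.im hq0
    simp at this
    linarith
  obtain ⟨q, t, ht, hq⟩ : ∃ q t, 0 ≤ t ∧ ∀ i, F i q = t := by
    rcases le_total 0 (F 2 q0) with h | h
    · refine ⟨q0, F 2 q0, h, fun i => ?_⟩
      fin_cases i
      exacts [e0, e1, rfl]
    · refine ⟨-q0, -F 2 q0, by linarith, fun i => ?_⟩
      rw [Fo]
      fin_cases i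
      exacts [congrArg _ e0, congrArg _ e1, rfl]
  obtain ⟨R, hR⟩ := exists_rot q
  have hR' : R q.1 = pole := hR
  have ht2 : ∀ y : S2, (rot R y).1 2 = inner ℝ q.1 y.1 := by
    intro y
    rw [← R.inner_map_map, hR]
    simp [rot, PiLp.inner_apply, Fin.sum_univ_three]
  have back : ∀ y : S2, rot R.symm (rot R y) = y := fun y => Subtype.ext (by simp [rot])
  have fwd : ∀ y : S2, rot R (rot R.symm y) = y := fun y => Subtype.ext (by simp [rot])
  choose u hu hu1 hu2 using fun i => ma i q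
  choose v hv hv1 hv2 using fun i => ma i (-q)
  have H := hole_pole (fun i => rot R.symm ⁻¹' C i) (fun i => (hC i).preimage (rot_cont _)) hl hh hlh
    (fun i y hy y' hy' => by
      have := hd i _ hy _ hy'
      simp only [rot] at this
      rwa [← map_add, LinearIsometryEquiv.norm_map] at this)
    (fun i => rot R (u i)) (fun i => rot R (v i))
    (fun i => by rw [mem_preimage, back]; exact hu i)
    (fun i => by rw [mem_preimage, back]; exact hv i)
    (fun i y hy => by rw [ht2, hu1, ← fwd y, ht2]; exact hu2 i _ hy)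
    (fun i y hy => by
      have a1 := hv2 i _ hy
      rw [← hv1, coe_neg_sphere, inner_neg_left, inner_neg_left] at a1
      rw [ht2, ← fwd y, ht2]
      linarith) ht
    (fun i => by
      have a1 := hv1 i
      rw [coe_neg_sphere, inner_neg_left] at a1
      rw [coe_neg_sphere, PiLp.neg_apply, ht2, ht2, hu1, a1]
      exact hq i)
  refine ⟨q, H.trans (le_of_eq ?_)⟩
  rw [← unif_rot R]
  · congr 1
    ext y
    simp only [mem_preimage, mem_ofPred_eq, back]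
    simp only [rot, ← hR', ← map_sub, ← map_add, LinearIsometryEquiv.norm_map]
  · refine MeasurableSet.inter (s₁ := {y | ∀ i, y ∉ rot R.symm ⁻¹' C i}) ?_ ?_
    · rw [ofPred_forall]
      exact MeasurableSet.iInter fun i =>
        ((hC i).preimage (rot_cont _)).measurableSet.compl
    · exact (measurableSet_le (f := fun y : S2 => ‖y.1 - pole‖) (by fun_prop)
        measurable_const).union
        (measurableSet_le (f := fun y : S2 => ‖y.1 + pole‖) (by fun_prop) measurable_const)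

end Pool.Agent.Lib.MP_f73bef_pr
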