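import Pool.Agent.Lib.MP_f73bef_pr.Second

namespace Pool.Agent.Lib.MP_f73bef_pr

open MeasureTheory Set Real Filter Topology

noncomputable def kk : ℝ := 4 * π / (3 * √3 / 2)

lemma kk_bounds : 2 ≤ kk ∧ kk ≤ 7 := by
  have s1 : √3 < 2 := by rw [sqrt_lt' (by norm_num)]; norm_num
  have s2 : 17 / 10 < √3 := by rw [lt_sqrt (by norm_num)]; norm_num
  unfold kk
  constructor
  · rw [le_div_iff₀ (by positivity)]; linarith [pi_gt_three]
  · rw [div_le_iff₀ (by positivity)]; linarith [pi_le_four]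

lemma kk_mul : kk / (4 * π) * √3 = 2 / 3 := by
  have := pi_pos
  have s0 : 0 < √3 := by positivity
  unfold kk
  field_simp

lemma bound1 (k : ℕ) (hk : (k : ℝ) = 100000) (n : ℕ) (ht : 1 ≤ log n)
    (hx : log n / n ≤ 1 / 10 ^ 8) :
    PP n (Col3 n (√(kk * (10002 / 10000) * (log n / n)))) ≤
      ENNReal.ofReal (121 * 2 ^ (2 * (6 * k + 1) ^ 3) * exp (-(1 / 10000 * log n))) := by
  have hn : 0 < n := by
    rcases Nat.eq_zero_or_pos n with rfl | h
    · norm_num at ht
    · exact h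
  have n0 : (0 : ℝ) < n := by exact_mod_cast hn
  have k0 : 0 < k := by
    have : (0 : ℝ) < k := by rw [hk]; norm_num
    exact_mod_cast this
  obtain ⟨k1, k2⟩ := kk_bounds
  obtain ⟨x, hxe⟩ : ∃ x, x = log n / n := ⟨_, rfl⟩
  have x0 : 0 < x := by rw [hxe]; positivity
  have xn : x * n = log n := by rw [hxe]; field_simp
  rw [← hxe] at hx ⊢
  obtain ⟨l0, hl0⟩ : ∃ l0, l0 = √(kk * (10002 / 10000) * x) := ⟨_, rfl⟩
  have l00 : 0 < l0 := by rw [hl0]; positivity
  have l02 : l0 ^ 2 = kk * (10002 / 10000) * x := by rw [hl0, sq_sqrt (by positivity)]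
  have kx : kk * x ≤ 7 / 10 ^ 8 := by nlinarith
  have kx2 : 2 * x ≤ kk * x := by nlinarith
  have l01 : l0 ≤ 1 := by nlinarith
  rw [← hl0]
  have e : (k + 4) * (l0 / 100004) = l0 := by rw [hk]; ring
  have e2 : (k * (l0 / 100004)) ^ 2 = (100000 / 100004) ^ 2 * (10002 / 10000) * (kk * x) := by
    rw [hk, mul_pow, div_pow l0, l02]; ring
  have B := col3_bound (η := l0 / 100004) (h := 999999 / 1000000) hn (by positivity) k0
    (by norm_num) (by rw [e2]; nlinarith)
  rw [e] at B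
  refine B.trans (ENNReal.ofReal_le_ofReal ?_)
  obtain ⟨C, hC⟩ : ∃ C : ℝ, C = 2 ^ (2 * (6 * k + 1) ^ 3) := ⟨_, rfl⟩
  have C0 : 0 ≤ C := by rw [hC]; exact pow_nonneg zero_le_two _
  rw [← hC]
  obtain ⟨l, hl⟩ : ∃ l, l = k * (l0 / 100004) := ⟨_, rfl⟩
  rw [← hl] at e2 ⊢
  have lpos : 0 < l := by rw [hl]; positivity
  have l1 : l ≤ 1 := by rw [hl, hk]; linarith
  have a1 : 2 * (⌈4 / l⌉₊ : ℝ) + 1 ≤ 11 / l := by
    have := (Nat.ceil_lt_add_one (a := 4 / l) (by positivity)).le
    have h3 : 3 ≤ 3 / l := by rw [le_div_iff₀ lpos]; linarith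
    have : 11 / l = 2 * (4 / l) + 3 / l := by ring
    linarith
  have a2 : (2 * (⌈4 / l⌉₊ : ℝ) + 1) ^ 2 ≤ 121 * exp (log n) := by
    refine (pow_le_pow_left₀ (by positivity) a1 2).trans ?_
    rw [exp_log n0, div_pow, div_le_iff₀ (by positivity)]
    have : x ≤ l ^ 2 := by rw [e2]; linarith
    have : 1 ≤ n * l ^ 2 := by nlinarith
    linarith
  have a3 : -(l ^ 2 * (999999 / 1000000) ^ 3 / (4 * π) * (3 * √3 / 2)) * n
      ≤ -(10001 / 10000 * log n) := by
    have : l ^ 2 * (999999 / 1000000) ^ 3 / (4 * π) * (3 * √3 / 2) * n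
        = (100000 / 100004) ^ 2 * (10002 / 10000) * (999999 / 1000000) ^ 3 * (3 / 2)
          * (kk / (4 * π) * √3) * (x * n) := by rw [e2]; ring
    rw [neg_mul, this, kk_mul, xn]
    linarith
  calc _ ≤ 121 * exp (log n) * C * exp (-(10001 / 10000 * log n)) := by
        gcongr
    _ = _ := by
        rw [mul_right_comm _ C, mul_assoc 121, ← exp_add, mul_right_comm]
        congr 2
        ring

lemma bound2 (n : ℕ) (ht : 1 ≤ log n) (hx : log n / n ≤ 1 / 10 ^ 8) :
    PP n (Circ n (√(kk * (10003 / 10000) * (log n / n))))ᶜ ≤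
      ENNReal.ofReal (1200 * (log n * exp (-(1 / 10000 * log n)))) := by
  have hn : 0 < n := by
    rcases Nat.eq_zero_or_pos n with rfl | h
    · norm_num at ht
    · exact h
  have n0 : (0 : ℝ) < n := by exact_mod_cast hn
  obtain ⟨k1, k2⟩ := kk_bounds
  obtain ⟨x, hxe⟩ : ∃ x, x = log n / n := ⟨_, rfl⟩
  have x0 : 0 < x := by rw [hxe]; positivity
  have xn : x * n = log n := by rw [hxe]; field_simp
  rw [← hxe] at hx ⊢
  obtain ⟨l, hl⟩ : ∃ l, l = √(kk * (10003 / 10000) * x) := ⟨_, rfl⟩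
  have l0 : 0 < l := by rw [hl]; positivity
  have l2 : l ^ 2 = kk * (10003 / 10000) * x := by rw [hl, sq_sqrt (by positivity)]
  have kx : kk * x ≤ 7 / 10 ^ 8 := by nlinarith
  have kx3 : kk * x ≤ 7 * x := by nlinarith
  have l1 : l ≤ 1 / 100 := by nlinarith
  rw [← hl]
  obtain ⟨l', hl'⟩ : ∃ l', l' = 100001 / 100000 * l := ⟨_, rfl⟩
  have l'0 : 0 < l' := by rw [hl']; positivity
  have l'1 : l' ≤ 1 / 50 := by rw [hl']; linarith
  have l'2 : l' ^ 2 = (100001 / 100000) ^ 2 * (10003 / 10000) * (kk * x) := by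
    rw [hl', mul_pow, l2]; ring
  have f1 : 1 ≤ 1 / (6 * l') := by rw [le_div_iff₀ (by positivity)]; linarith
  have M0 : 0 < ⌊1 / (6 * l')⌋₊ := Nat.floor_pos.mpr f1
  have M1 : (⌊1 / (6 * l')⌋₊ : ℝ) ≤ 1 / (6 * l') := Nat.floor_le (by positivity)
  have M2 : 1 / (12 * l') ≤ (⌊1 / (6 * l')⌋₊ : ℝ) := by
    have a := Nat.lt_floor_add_one (1 / (6 * l'))
    have b : (1 : ℝ) ≤ ⌊1 / (6 * l')⌋₊ := by exact_mod_cast M0
    have c : 1 / (6 * l') = 2 * (1 / (12 * l')) := by field_simp; norm_num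
    linarith
  have B := circ_bound n (l := l) (l' := l') (p := 99985 / 100000 * x) l0 (by linarith) l'0
    (by linarith) (by
      rw [hl', mul_pow]
      have : l ^ 2 ≤ 1 / 10 ^ 6 := by rw [l2]; linarith
      nlinarith [sq_nonneg l])
    (by
      have : l' ^ 2 / (4 * π) * (1012 * √3 / 675) = (100001 / 100000) ^ 2 * (10003 / 10000)
          * (1012 / 675) * (kk / (4 * π) * √3) * x := by rw [l'2]; ring
      rw [this, kk_mul]
      linarith)
    (by linarith) M0 (by
      rw [le_div_iff₀ (by positivity)] at M1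
      linarith)
  refine B.trans (ENNReal.ofReal_le_ofReal ?_)
  have a1 : exp (-(9999 / 10000 * x)) ≤ 1 - 99985 / 100000 * x := by
    have := add_one_le_exp (9999 / 10000 * x)
    rw [exp_neg, inv_le_comm₀ (exp_pos _) (by linarith)]
    refine le_trans ?_ this
    rw [inv_eq_one_div, div_le_iff₀ (by linarith)]
    nlinarith
  have a2 : exp (-(9999 / 10000 * log n)) ≤ (1 - 99985 / 100000 * x) ^ n := by
    have : -(9999 / 10000 * log n) = n * -(9999 / 10000 * x) := by rw [← xn]; ring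
    rw [this, exp_nat_mul]
    exact pow_le_pow_left₀ (exp_pos _).le a1 n
  have a3 : 1 / (1200 * x) ≤ (⌊1 / (6 * l')⌋₊ : ℝ) ^ 2 := by
    refine le_trans ?_ (pow_le_pow_left₀ (by positivity) M2 2)
    rw [div_pow, one_pow, mul_pow]
    refine one_div_le_one_div_of_le (by positivity) ?_
    rw [l'2]
    linarith
  calc _ ≤ 1 / (1 / (1200 * x) * exp (-(9999 / 10000 * log n))) := by
        refine one_div_le_one_div_of_le (by positivity) ?_
        exact mul_le_mul a3 a2 (exp_pos _).le (sq_nonneg _)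
    _ = _ := by
        have : exp (-(9999 / 10000 * log n)) * exp (-(1 / 10000 * log n)) * n = 1 := by
          have e : -(9999 / 10000 * log n) + -(1 / 10000 * log n) = -log n := by ring
          rw [← exp_add, e, exp_neg, exp_log n0, inv_mul_cancel₀ n0.ne']
        have p1 := exp_pos (-(9999 / 10000 * log n))
        generalize exp (-(9999 / 10000 * log n)) = A at this p1 ⊢
        generalize exp (-(1 / 10000 * log n)) = B at this ⊢
        rw [div_eq_iff (by positivity), ← xn]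
        field_simp
        linarith

lemma angle_iff (x y : S2) {l : ℝ} (h0 : 0 ≤ l) (h2 : l ≤ 2) :
    π - arccos (1 - l ^ 2 / 2) < InnerProductGeometry.angle x.1 y.1 ↔ ‖x.1 + y.1‖ < l := by
  have a1 := norm_eq_of_mem_sphere x
  have a2 := norm_eq_of_mem_sphere y
  have cs := abs_real_inner_le_norm x.1 y.1
  rw [a1, a2, mul_one, abs_le] at cs
  rw [← arccos_neg, InnerProductGeometry.angle, a1, a2, mul_one, div_one,
    ← pow_lt_pow_iff_left₀ (norm_nonneg _) h0 two_ne_zero, norm_add_sq_real, a1, a2,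
    strictAntiOn_arccos.lt_iff_gt ⟨by nlinarith, by nlinarith⟩ ⟨cs.1, cs.2⟩]
  constructor <;> intro h <;> linarith

lemma hit_lt {n : ℕ} {l0 l1 : ℝ} (h0 : 0 ≤ l0) (h1 : l0 < l1) (h2 : l1 ≤ 2) (X : Fin n → S2)
    (hP : X ∉ Col3 n l0) (hQ : X ∈ Circ n l1) :
    hitAngle (PropP 3) X < hitAngle (PropQ S2) X := by
  have lt : arccos (1 - l0 ^ 2 / 2) < arccos (1 - l1 ^ 2 / 2) :=
    arccos_lt_arccos (by nlinarith) (by nlinarith) (by nlinarith)
  have a : hitAngle (PropP 3) X ≤ arccos (1 - l0 ^ 2 / 2) := by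
    refine csInf_le ⟨0, ?_⟩ (Or.inl ⟨⟨arccos_nonneg _, arccos_le_pi _⟩, ?_⟩)
    · rintro α (h | h)
      · exact h.1.1
      · rw [h]; exact pi_pos.le
    · rintro ⟨c⟩
      refine hP ⟨c, fun i j hij => ?_⟩
      by_cases e : i = j
      · subst e
        rw [← two_smul ℝ, norm_smul, norm_eq_of_mem_sphere]
        simp only [norm_ofNat, mul_one]
        linarith
      · by_contra hc
        refine c.valid ?_ hij
        exact (SimpleGraph.fromRel_adj _ _ _).mpr
          ⟨e, Or.inl ((angle_iff _ _ h0 (by linarith)).mpr (not_le.mp hc))⟩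
  have b : arccos (1 - l1 ^ 2 / 2) ≤ hitAngle (PropQ S2) X := by
    refine le_csInf ⟨π, Or.inr rfl⟩ ?_
    rintro α (h | h)
    · by_contra hc
      push Not at hc
      obtain ⟨H, hH, he⟩ := h.2
      obtain ⟨φ, hφ⟩ := hQ
      refine noSphere H φ (fun u v huv => hφ u v ?_) he
      rw [← angle_iff _ _ (by linarith) h2]
      rcases ((SimpleGraph.fromRel_adj _ _ _).mp (hH huv)).2 with k | k
      · linarith
      · rw [InnerProductGeometry.angle_comm]; linarith
    · rw [h]; exact arccos_le_pi _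
  linarith

theorem main : Tendsto (fun n : ℕ => Measure.pi (fun _ : Fin n => unif E3)
    {X | ¬ hitAngle (PropP 3) X < hitAngle (PropQ S2) X}) atTop (𝓝 0) := by
  obtain ⟨C, hC⟩ : ∃ C : ℝ, ∀ n : ℕ, 1 ≤ log n → log n / n ≤ 1 / 10 ^ 8 →
      PP n (Col3 n (√(kk * (10002 / 10000) * (log n / n)))) ≤
        ENNReal.ofReal (C * exp (-(1 / 10000 * log n))) := ⟨_, bound1 100000 (by norm_num)⟩
  have tl : Tendsto (fun n : ℕ => log n) atTop atTop :=
    tendsto_log_atTop.comp tendsto_natCast_atTop_atTop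
  have tl2 : Tendsto (fun n : ℕ => 1 / 10000 * log n) atTop atTop :=
    tl.const_mul_atTop (by norm_num)
  have tx : Tendsto (fun n : ℕ => log n / n) atTop (𝓝 0) := by
    have := (tendsto_pow_log_div_mul_add_atTop 1 0 1 one_ne_zero).comp tendsto_natCast_atTop_atTop
    simpa [Function.comp_def] using this
  have t1 : Tendsto (fun n : ℕ => ENNReal.ofReal (C * exp (-(1 / 10000 * log n)))) atTop (𝓝 0) := by
    have := ENNReal.tendsto_ofReal ((tendsto_exp_neg_atTop_nhds_zero.comp tl2).const_mul C)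
    simpa [Function.comp_def] using this
  have t2 : Tendsto (fun n : ℕ => ENNReal.ofReal (1200 * (log n * exp (-(1 / 10000 * log n)))))
      atTop (𝓝 0) := by
    have := ENNReal.tendsto_ofReal
      (((tendsto_pow_mul_exp_neg_atTop_nhds_zero 1).comp tl2).const_mul 12000000)
    simp only [mul_zero, ENNReal.ofReal_zero, Function.comp_def] at this
    refine this.congr fun n => ?_
    congr 1
    ring
  have t3 := t1.add t2
  rw [add_zero] at t3
  refine tendsto_of_tendsto_of_tendsto_of_le_of_le' tendsto_const_nhds t3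
    (Eventually.of_forall fun _ => zero_le) ?_
  filter_upwards [tl.eventually_ge_atTop 1, tx.eventually_le_const (by norm_num : (0 : ℝ) < 1 / 10 ^ 8)]
    with n h1 h2
  refine le_trans ?_ (add_le_add (hC n h1 h2) (bound2 n h1 h2))
  refine le_trans (measure_mono ?_) (measure_union_le _ _)
  intro X hX
  by_contra hc
  rw [mem_union, not_or, mem_compl_iff, not_not] at hc
  obtain ⟨k1, k2⟩ := kk_bounds
  have n0 : (0 : ℝ) < n := by
    rcases Nat.eq_zero_or_pos n with rfl | h
    · norm_num at h1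
    · exact_mod_cast h
  have x0 : 0 < log n / n := by positivity
  refine hX (hit_lt (sqrt_nonneg _) (sqrt_lt_sqrt (by positivity) ?_) ?_ X hc.1 hc.2)
  · nlinarith [mul_pos (by linarith : 0 < kk) x0]
  · exact sqrt_le_iff.mpr ⟨by norm_num, by nlinarith⟩

end Pool.Agent.Lib.MP_f73bef_pr
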