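import Pool.Agent.Lib.MP_f73bef_pr.Defs

namespace Pool.Agent.Lib.MP_f73bef_pr

open Complex unitInterval

/-- Every nowhere vanishing continuous complex function has a continuous logarithm. -/
def HasLog (A : Type) [TopologicalSpace A] : Prop :=
  ∀ f : A → ℂ, Continuous f → (∀ a, f a ≠ 0) → ∃ g : A → ℂ, Continuous g ∧ ∀ a, exp (g a) = f a

lemma log_of_homotopy {A : Type} [TopologicalSpace A] (H : I × A → ℂ) (hH : Continuous H)
    (h0 : ∀ p, H p ≠ 0) (g : A → ℂ) (hg : Continuous g) (hg0 : ∀ a, exp (g a) = H (0, a)) :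
    ∃ g' : A → ℂ, Continuous g' ∧ ∀ a, exp (g' a) = H (1, a) := by
  let H' : C(I × A, {z : ℂ // z ≠ 0}) := ⟨fun p => ⟨H p, h0 p⟩, hH.subtype_mk _⟩
  let g0 : C(A, ℂ) := ⟨g, hg⟩
  have hz : ∀ a, H' (0, a) = (fun z : ℂ => (⟨_, z.exp_ne_zero⟩ : {z : ℂ // z ≠ 0})) (g0 a) := by
    intro a
    apply Subtype.ext
    simp [H', g0, hg0]
  let L := Complex.isCoveringMap_exp.liftHomotopy H' g0 hz
  refine ⟨fun a => L (1, a), L.continuous.comp (by fun_prop), fun a => ?_⟩
  have := congr_fun (Complex.isCoveringMap_exp.liftHomotopy_lifts H' g0 hz) (1, a)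
  exact congrArg Subtype.val this

lemma const_of_exp {A : Type} [TopologicalSpace A] [PreconnectedSpace A] (D : A → ℂ)
    (hD : Continuous D) (he : ∀ a a', exp (D a) = exp (D a')) (a a' : A) : D a = D a' :=
  Complex.isCoveringMap_exp.const_of_comp hD (fun a a' => Subtype.ext (he a a')) a a'

abbrev E3 := EuclideanSpace ℝ (Fin 3)

abbrev S2 : Type := Metric.sphere (0 : E3) 1

noncomputable def nrm (v : E3) (hv : v ≠ 0) : S2 :=
  ⟨‖v‖⁻¹ • v, by simp [norm_smul, hv]⟩

lemma continuous_nrm {A : Type} [TopologicalSpace A] (v : A → E3) (hc : Continuous v)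
    (hv : ∀ a, v a ≠ 0) : Continuous fun a => nrm (v a) (hv a) := by
  refine Continuous.subtype_mk ?_ _
  exact (hc.norm.inv₀ fun a => norm_ne_zero_iff.mpr (hv a)).smul hc

lemma sph_sq (x : S2) : x.1 0 ^ 2 + x.1 1 ^ 2 + x.1 2 ^ 2 = 1 := by
  have h : ‖x.1‖ = 1 := by simp
  have h2 := EuclideanSpace.real_norm_sq_eq x.1
  rw [h, Fin.sum_univ_three] at h2
  linarith

noncomputable def hv (s : ℝ) (p : I × S2) : E3 :=
  !₂[(p.1 : ℝ) * p.2.1 0, (p.1 : ℝ) * p.2.1 1, s * ((1 - (p.1 : ℝ)) + (p.1 : ℝ) * |p.2.1 2|)]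

lemma hv_cont (s : ℝ) : Continuous (hv s) := by
  unfold hv
  refine (PiLp.continuous_toLp 2 _).comp ?_
  refine continuous_pi fun i => ?_
  fin_cases i <;> simp <;> fun_prop

lemma hv_ne (s : ℝ) (hs : s ≠ 0) (p : I × S2) : hv s p ≠ 0 := by
  intro h
  have h0 := congrArg (fun v : E3 => v 0) h
  have h1 := congrArg (fun v : E3 => v 1) h
  have h2 := congrArg (fun v : E3 => v 2) h
  simp only [hv] at h0 h1 h2
  simp [hs] at h0 h1 h2
  have a0 := p.1.2.1
  have a1 := p.1.2.2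
  have a2 := abs_nonneg (p.2.1 2)
  have a3 : (p.1 : ℝ) * |p.2.1 2| = 0 := by nlinarith [mul_nonneg a0 a2]
  have a4 : (p.1 : ℝ) = 1 := by linarith
  have a5 : p.1 ≠ 0 := by
    intro h; rw [h] at a4; simp at a4
  have a6 : p.2.1 2 = 0 := by
    rw [a4] at a3; simpa using a3
  have := sph_sq p.2
  rw [h0.resolve_left a5, h1.resolve_left a5, a6] at this
  norm_num at this

lemma hemi_log (s : ℝ) (hs : s ≠ 0) (f : S2 → ℂ) (hf : Continuous f) (h0 : ∀ a, f a ≠ 0) :
    ∃ g : S2 → ℂ, Continuous g ∧ ∀ x, s * |x.1 2| = x.1 2 → exp (g x) = f x := by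
  have hN : (!₂[0, 0, s] : E3) ≠ 0 := by
    intro h
    have h2 := congrArg (fun v : E3 => v 2) h
    simp at h2
    exact hs h2
  obtain ⟨g, hg, hg1⟩ := log_of_homotopy (fun p => f (nrm (hv s p) (hv_ne s hs p)))
    (hf.comp (continuous_nrm _ (hv_cont s) (hv_ne s hs))) (fun p => h0 _)
    (fun _ => log (f (nrm _ hN))) continuous_const (by
      intro a
      rw [exp_log (h0 _)]
      congr 2
      simp [hv])
  refine ⟨g, hg, fun x hx => ?_⟩
  rw [hg1]
  congr 1
  have e : hv s (1, x) = x.1 := by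
    ext i
    fin_cases i <;> simp [hv, hx]
  apply Subtype.ext
  simp [nrm, e]

noncomputable def eqt (θ : ℝ) : S2 :=
  ⟨!₂[Real.cos θ, Real.sin θ, 0], by
    simp [EuclideanSpace.norm_eq, Fin.sum_univ_three]⟩

lemma eqt_cont : Continuous eqt := by
  refine Continuous.subtype_mk ?_ _
  refine (PiLp.continuous_toLp 2 _).comp ?_
  refine continuous_pi fun i => ?_
  fin_cases i <;> simp <;> fun_prop

lemma exists_angle (a b : ℝ) (h : a ^ 2 + b ^ 2 = 1) : ∃ θ, Real.cos θ = a ∧ Real.sin θ = b := by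
  have hn : ‖(⟨a, b⟩ : ℂ)‖ = 1 := by
    rw [Complex.norm_eq_sqrt_sq_add_sq]; simp [h]
  have hz : (⟨a, b⟩ : ℂ) ≠ 0 := by
    intro h; rw [h] at hn; simp at hn
  refine ⟨Complex.arg ⟨a, b⟩, ?_, ?_⟩
  · rw [Complex.cos_arg hz, hn]; simp
  · rw [Complex.sin_arg, hn]; simp

lemma eqt_surj (x : S2) (hx : x.1 2 = 0) : ∃ θ, eqt θ = x := by
  have := sph_sq x
  obtain ⟨θ, h1, h2⟩ := exists_angle (x.1 0) (x.1 1) (by rw [hx] at this; linarith)
  refine ⟨θ, Subtype.ext ?_⟩
  ext i
  fin_cases i <;> simp [eqt, h1, h2, hx]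

theorem sphere_log : HasLog S2 := by
  intro f hf h0
  obtain ⟨g1, hg1, e1⟩ := hemi_log 1 one_ne_zero f hf h0
  obtain ⟨g2, hg2, e2⟩ := hemi_log (-1) (by norm_num) f hf h0
  have hc : ∀ θ θ', g1 (eqt θ) - g2 (eqt θ) = g1 (eqt θ') - g2 (eqt θ') := by
    have k : ∀ θ, exp (g1 (eqt θ) - g2 (eqt θ)) = 1 := by
      intro θ
      rw [exp_sub, e1 _ (by simp [eqt]), e2 _ (by simp [eqt]), div_self (h0 _)]
    exact const_of_exp _ ((hg1.comp eqt_cont).sub (hg2.comp eqt_cont)) fun a a' => by rw [k, k]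
  have k0 : exp (g1 (eqt 0) - g2 (eqt 0)) = 1 := by
    rw [exp_sub, e1 _ (by simp [eqt]), e2 _ (by simp [eqt]), div_self (h0 _)]
  classical
  refine ⟨fun x => if (0 : ℝ) ≤ x.1 2 then g1 x else g2 x + (g1 (eqt 0) - g2 (eqt 0)), ?_, ?_⟩
  · refine Continuous.if_le hg1 (hg2.add continuous_const) continuous_const (by fun_prop) ?_
    intro x hx
    obtain ⟨θ, rfl⟩ := eqt_surj x hx.symm
    rw [hc 0 θ]; ring
  · intro x
    by_cases hx : (0 : ℝ) ≤ x.1 2
    · simp only [hx, if_true]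
      exact e1 x (by rw [abs_of_nonneg hx, one_mul])
    · simp only [hx, if_false]
      rw [exp_add, k0, mul_one]
      exact e2 x (by rw [abs_of_neg (not_le.mp hx)]; ring)

instance : PreconnectedSpace S2 := by
  refine isPreconnected_iff_preconnectedSpace.mp ?_
  refine isPreconnected_sphere ?_ _ _
  rw [← Module.finrank_eq_rank]
  simp

theorem borsuk_ulam (F : S2 → ℂ) (hF : Continuous F) (hodd : ∀ x, F (-x) = -F x) :
    ∃ x, F x = 0 := by
  by_contra h
  push Not at h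
  obtain ⟨g, hg, e⟩ := sphere_log F hF h
  have k : ∀ x, exp (g (-x) - g x) = -1 := by
    intro x
    rw [exp_sub, e, e, hodd, neg_div, div_self (h x)]
  have hc := const_of_exp (fun x => g (-x) - g x) ((hg.comp continuous_neg).sub hg)
    (fun a a' => by rw [k, k]) (eqt 0) (-eqt 0)
  simp only [neg_neg] at hc
  have h2 : g (-eqt 0) - g (eqt 0) = 0 := by linear_combination (1 / 2 : ℂ) * hc
  have := k (eqt 0)
  rw [h2, exp_zero] at this
  norm_num at this

lemma hasLog_of_equiv {Y : Type} [TopologicalSpace Y]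
    (e : ContinuousMap.HomotopyEquiv Y S2) : HasLog Y := by
  intro f hf h0
  obtain ⟨g, hg, eg⟩ := sphere_log (fun x => f (e.invFun x)) (hf.comp e.invFun.continuous)
    fun _ => h0 _
  obtain ⟨H⟩ := e.left_inv
  obtain ⟨g', hg', eg'⟩ := log_of_homotopy (fun p => f (H p)) (hf.comp H.continuous)
    (fun _ => h0 _) (fun y => g (e.toFun y)) (hg.comp e.toFun.continuous) (by
      intro a
      rw [eg]
      simp)
  exact ⟨g', hg', fun a => by simpa using eg' a⟩

lemma int_const {A : Type} [TopologicalSpace A] [PreconnectedSpace A] (Φ : A → ℝ)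
    (hΦ : Continuous Φ) (hi : ∀ a, ∃ m : ℤ, Φ a = m) (a a' : A) : Φ a = Φ a' := by
  have k : ∀ a, exp ((Φ a : ℂ) * (2 * Real.pi * Complex.I)) = 1 := by
    intro a
    obtain ⟨m, hm⟩ := hi a
    rw [hm]
    simp
  have := const_of_exp (fun a => (Φ a : ℂ) * (2 * Real.pi * Complex.I)) (by fun_prop)
    (fun a a' => by rw [k, k]) a a'
  have h2 := mul_right_cancel₀ two_pi_I_ne_zero this
  exact_mod_cast h2

lemma int_const_of_equiv {Y : Type} [TopologicalSpace Y]
    (e : ContinuousMap.HomotopyEquiv Y S2) (Φ : Y → ℝ)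
    (hΦ : Continuous Φ) (hi : ∀ a, ∃ m : ℤ, Φ a = m) (a a' : Y) : Φ a = Φ a' := by
  obtain ⟨H⟩ := e.left_inv
  have k : ∀ y, Φ y = Φ (e.invFun (e.toFun y)) := by
    intro y
    have := int_const (fun t : I => Φ (H (t, y))) (hΦ.comp (H.continuous.comp (by fun_prop)))
      (fun _ => hi _) 1 0
    simpa using this
  rw [k a, k a']
  exact int_const (fun x => Φ (e.invFun x)) (hΦ.comp e.invFun.continuous) (fun _ => hi _) _ _

lemma re_div_pos {a b : ℂ} (h : (a * (starRingEnd ℂ) b).re < 0) : 0 < (-a / b).re := by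
  have hb : b ≠ 0 := by
    rintro rfl
    simp at h
  have : -a / b = -(a * (starRingEnd ℂ) b) * ((normSq b)⁻¹ : ℝ) := by
    rw [div_eq_mul_inv, Complex.inv_def]; push_cast; ring
  rw [this, re_mul_ofReal, neg_re]
  exact mul_pos (by linarith) (inv_pos.mpr (normSq_pos.mpr hb))

theorem noSphere {n : ℕ} (H : SimpleGraph (Fin n)) (φ : Fin n → ℂ)
    (hφ : ∀ u v, H.Adj u v → (φ u * (starRingEnd ℂ) (φ v)).re < 0) :
    ¬ Nonempty (ContinuousMap.HomotopyEquiv (nbhdComplex H) S2) := by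
  classical
  rintro ⟨e⟩
  let f : (Fin n → ℝ) → ℂ := fun w => ∑ v, (w v : ℂ) * φ v
  have fc : Continuous f := by
    refine continuous_finsetSum _ fun v _ => ?_
    fun_prop
  have hneg : ∀ w ∈ stdSimplex ℝ (Fin n), ∀ b, (∀ v, w v ≠ 0 → H.Adj v b) →
      (f w * (starRingEnd ℂ) (φ b)).re < 0 := by
    intro w hw b hb
    have e1 : (f w * (starRingEnd ℂ) (φ b)).re
        = ∑ v, w v * (φ v * (starRingEnd ℂ) (φ b)).re := by
      simp only [f, Finset.sum_mul, re_sum, mul_assoc, re_ofReal_mul]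
    rw [e1]
    obtain ⟨v0, hv0⟩ : ∃ v, w v ≠ 0 := by
      by_contra h
      push Not at h
      have := hw.2
      simp [h] at this
    have : ∑ v, w v * (φ v * (starRingEnd ℂ) (φ b)).re < ∑ _v : Fin n, (0 : ℝ) := by
      refine Finset.sum_lt_sum (fun v _ => ?_) ⟨v0, Finset.mem_univ _, ?_⟩
      · by_cases h : w v = 0
        · simp [h]
        · exact mul_nonpos_of_nonneg_of_nonpos (hw.1 v) (hφ v b (hb v h)).le
      · exact mul_neg_of_pos_of_neg (lt_of_le_of_ne (hw.1 v0) (Ne.symm hv0)) (hφ v0 b (hb v0 hv0))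
    simpa using this
  have hne : ∀ y : nbhdComplex H, f y.1 ≠ 0 := by
    rintro ⟨w, hw, b, hb⟩ h
    have := hneg w hw b hb
    simp only at h
    rw [h] at this
    simp at this
  obtain ⟨g, hg, eg⟩ := hasLog_of_equiv e (fun y => f y.1) (fc.comp continuous_subtype_val) hne
  have hsupp : ∀ u b, H.Adj u b → ∀ v, (Pi.single u (1 : ℝ) : Fin n → ℝ) v ≠ 0 → H.Adj v b := by
    intro u b h v hv
    by_cases e : v = u
    · rwa [e]
    · simp [e] at hv
  have hmem : ∀ u b, H.Adj u b → (Pi.single u (1 : ℝ) : Fin n → ℝ) ∈ nbhdComplex H :=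
    fun u b h => ⟨single_mem_stdSimplex ℝ u, b, hsupp u b h⟩
  have fs : ∀ u, f (Pi.single u (1 : ℝ)) = φ u := by
    intro u
    simp only [f]
    rw [Finset.sum_eq_single u]
    · simp
    · intro v _ hv; simp [hv]
    · simp
  have φne : ∀ u b, H.Adj u b → φ u ≠ 0 := by
    intro u b h h0
    have := hφ u b h
    simp [h0] at this
  -- the defect is constant on each simplex
  have key : ∀ b u (h : H.Adj b u), ∃ m : ℤ, ∀ y : nbhdComplex H, (∀ v, y.1 v ≠ 0 → H.Adj v b) →
      g y - g ⟨_, hmem b u h⟩ - log (-f y.1 / φ b) = (2 * m + 1) * (Real.pi * Complex.I) := by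
    intro b u h
    have hex : ∀ y : nbhdComplex H,
        exp (g y - g ⟨_, hmem b u h⟩ - log (-f y.1 / φ b)) = -1 := by
      intro y
      have h1 := hne y
      have h2 := φne b u h
      rw [exp_sub, exp_sub, eg, eg, exp_log (div_ne_zero (neg_ne_zero.mpr h1) h2)]
      simp only [fs]
      field_simp
    let y0 : nbhdComplex H := ⟨_, hmem u b h.symm⟩
    obtain ⟨m, hm⟩ : ∃ m : ℤ, g y0 - g ⟨_, hmem b u h⟩ - log (-f y0.1 / φ b)
        = (2 * m + 1) * (Real.pi * Complex.I) := by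
      have := hex y0
      rw [← exp_pi_mul_I, exp_eq_exp_iff_exists_int] at this
      obtain ⟨m, hm⟩ := this
      exact ⟨m, by rw [hm]; ring⟩
    refine ⟨m, fun y hy => ?_⟩
    rw [← hm]
    have hs : ∀ t : I, ∀ v, ((1 - (t : ℝ)) • y0.1 + (t : ℝ) • y.1) v ≠ 0 → H.Adj v b := by
      intro t v hv
      by_contra hc
      have a1 : y0.1 v = 0 := by
        by_contra a; exact hc (hsupp u b h.symm v a)
      have a2 : y.1 v = 0 := by
        by_contra a; exact hc (hy v a)
      simp [a1, a2] at hv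
    have hst : ∀ t : I, (1 - (t : ℝ)) • y0.1 + (t : ℝ) • y.1 ∈ stdSimplex ℝ (Fin n) :=
      fun t => convex_stdSimplex ℝ (Fin n) y0.2.1 y.2.1 (by linarith [t.2.2]) t.2.1 (by ring)
    let γ : I → nbhdComplex H := fun t => ⟨_, hst t, b, hs t⟩
    have γc : Continuous γ := by
      refine Continuous.subtype_mk ?_ _
      fun_prop
    have hc : Continuous fun t : I => g (γ t) - g ⟨_, hmem b u h⟩ - log (-f (γ t).1 / φ b) := by
      refine ((hg.comp γc).sub continuous_const).sub ?_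
      refine Continuous.clog ?_ fun t => ?_
      · exact ((fc.comp (continuous_subtype_val.comp γc)).neg).div_const _
      · exact Or.inl (re_div_pos (hneg _ (hst t) b (hs t)))
    have := const_of_exp _ hc (fun a a' => by rw [hex, hex]) 1 0
    have g1 : γ 1 = y := Subtype.ext (by simp [γ])
    have g0 : γ 0 = y0 := Subtype.ext (by simp [γ])
    simpa only [g1, g0] using this
  have key2 : ∀ b, ∃ m : ℤ, ∀ u (h : H.Adj b u), ∀ y : nbhdComplex H,
      (∀ v, y.1 v ≠ 0 → H.Adj v b) →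
      g y - g ⟨_, hmem b u h⟩ - log (-f y.1 / φ b) = (2 * m + 1) * (Real.pi * Complex.I) := by
    intro b
    by_cases hb : ∃ u, H.Adj b u
    · obtain ⟨u, h⟩ := hb
      obtain ⟨m, hm⟩ := key b u h
      exact ⟨m, fun u' h' y hy => hm y hy⟩
    · exact ⟨0, fun u h => absurd ⟨u, h⟩ hb⟩
  choose m hm using key2
  have hadj : ∀ u b, H.Adj u b → m u + m b + 1 = 0 := by
    intro u b h
    have a1 := hm b u h.symm ⟨_, hmem u b h⟩ (hsupp u b h)
    have a2 := hm u b h ⟨_, hmem b u h.symm⟩ (hsupp b u h.symm)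
    simp only [fs] at a1 a2
    have hp := re_div_pos (hφ u b h)
    have harg : (-φ u / φ b).arg ≠ Real.pi := by
      intro hh
      rw [arg_eq_pi_iff] at hh
      linarith [hh.1]
    have a3 : log (-φ b / φ u) = -log (-φ u / φ b) := by
      rw [← log_inv _ harg]
      congr 1
      have := φne u b h
      have := φne b u h.symm
      field_simp
    rw [a3] at a2
    have a4 : ((m u + m b + 1 : ℤ) : ℂ) * (2 * Real.pi * Complex.I) = 0 := by
      push_cast
      linear_combination -a1 - a2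
    have := (mul_eq_zero.mp a4).resolve_right two_pi_I_ne_zero
    exact_mod_cast this
  let Φ : nbhdComplex H → ℝ := fun y => ∑ v, y.1 v * (m v : ℝ)
  have Φc : Continuous Φ := by
    refine continuous_finsetSum _ fun v _ => ?_
    exact ((continuous_apply v).comp continuous_subtype_val).mul continuous_const
  have Φv : ∀ (y : nbhdComplex H) b, (∀ v, y.1 v ≠ 0 → H.Adj v b) →
      Φ y = ((-1 - m b : ℤ) : ℝ) := by
    intro y b hb
    have : ∀ v, y.1 v * (m v : ℝ) = y.1 v * ((-1 - m b : ℤ) : ℝ) := by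
      intro v
      by_cases h : y.1 v = 0
      · simp [h]
      · have := hadj v b (hb v h)
        congr 2
        omega
    simp only [Φ, this, ← Finset.sum_mul, y.2.1.2, one_mul]
  have Φi : ∀ y, ∃ k : ℤ, Φ y = k := fun y => by
    obtain ⟨b, hb⟩ := y.2.2
    exact ⟨_, Φv y b hb⟩
  obtain ⟨w, hw, b, hb⟩ := e.invFun (eqt 0)
  obtain ⟨u, hu⟩ : ∃ v, w v ≠ 0 := by
    by_contra h
    push Not at h
    have := hw.2
    simp [h] at this
  have h := hb u hu
  have := int_const_of_equiv e Φ Φc Φi ⟨_, hmem u b h⟩ ⟨_, hmem b u h.symm⟩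
  rw [Φv _ b (hsupp u b h), Φv _ u (hsupp b u h.symm)] at this
  have h1 : -1 - m b = -1 - m u := by exact_mod_cast this
  have h2 := hadj u b h
  omega

end Pool.Agent.Lib.MP_f73bef_pr
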