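import Pool.Agent.Lib.MP_f73bef_pr.Circle
import Pool.Agent.Lib.MP_f73bef_pr.Topo

namespace Pool.Agent.Lib.MP_f73bef_pr

open MeasureTheory Set Real

noncomputable def pol (r ω : ℝ) : ℝ × ℝ := (r * cos ω, r * sin ω)

def nsq (p : ℝ × ℝ) : ℝ := p.1 ^ 2 + p.2 ^ 2

def slice (S : Set (ℝ × ℝ)) (r : ℝ) : Set ℝ := {ω | pol r ω ∈ S}

lemma nsq_pol (r ω : ℝ) : nsq (pol r ω) = r ^ 2 := by
  simp only [nsq, pol]
  linear_combination r ^ 2 * cos_sq_add_sin_sq ω

lemma nsq_pol_sub (r ω s η : ℝ) :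
    nsq (pol r ω - pol s η) = r ^ 2 + s ^ 2 - 2 * r * s * cos (ω - η) := by
  simp only [nsq, pol, cos_sub, Prod.fst_sub, Prod.snd_sub]
  linear_combination r ^ 2 * cos_sq_add_sin_sq ω + s ^ 2 * cos_sq_add_sin_sq η

lemma pol_cont : Continuous fun p : ℝ × ℝ => pol p.1 p.2 := by
  unfold pol; fun_prop

lemma slice_meas {S : Set (ℝ × ℝ)} (hS : MeasurableSet S) (r : ℝ) : MeasurableSet (slice S r) :=
  (pol_cont.comp (f := fun ω : ℝ => (r, ω)) (by fun_prop)).measurable hS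

lemma slice_per (S : Set (ℝ × ℝ)) (r x : ℝ) : x + 2 * π ∈ slice S r ↔ x ∈ slice S r := by
  simp [slice, pol]

lemma exists_pol (p : ℝ × ℝ) (h : 0 < nsq p) : ∃ ω, p = pol (√(nsq p)) ω := by
  have hs : 0 < √(nsq p) := sqrt_pos.mpr h
  have h2 : √(nsq p) ^ 2 = nsq p := sq_sqrt h.le
  obtain ⟨θ, h1, h3⟩ := exists_angle (p.1 / √(nsq p)) (p.2 / √(nsq p)) (by
    rw [div_pow, div_pow, h2, ← add_div]; exact div_self h.ne')
  refine ⟨θ, Prod.ext ?_ ?_⟩
  · simp only [pol, h1]; field_simp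
  · simp only [pol, h3]; field_simp

lemma arc_meas {S : Set (ℝ × ℝ)} (hS : MeasurableSet S) {f : ℝ → ℝ} (hf : Continuous f) :
    Measurable fun y => volume (slice S (f y) ∩ Ioo (-π) π) := by
  have hT : MeasurableSet {p : ℝ × ℝ | pol (f p.1) p.2 ∈ S ∧ p.2 ∈ Ioo (-π) π} := by
    refine MeasurableSet.inter ?_ (measurable_snd measurableSet_Ioo)
    exact (pol_cont.comp (f := fun p : ℝ × ℝ => (f p.1, p.2)) (by fun_prop)).measurable hS
  exact measurable_measure_prodMk_left (ν := (volume : Measure ℝ)) hT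

lemma vol_polar {S : Set (ℝ × ℝ)} (hS : MeasurableSet S) :
    volume S = ∫⁻ r in Ioi (0 : ℝ), ENNReal.ofReal r * volume (slice S r ∩ Ioo (-π) π) := by
  rw [← lintegral_indicator_one hS, ← lintegral_comp_polarCoord_symm]
  have e : polarCoord.target = Ioi (0 : ℝ) ×ˢ Ioo (-π) π := rfl
  rw [e, Measure.volume_eq_prod, setLIntegral_prod]
  · refine setLIntegral_congr_fun measurableSet_Ioi fun r _ => ?_
    have : (fun ω => ENNReal.ofReal (r, ω).1 • S.indicator 1 (polarCoord.symm (r, ω)))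
        = fun ω => ENNReal.ofReal r * (slice S r).indicator 1 ω := by
      funext ω
      by_cases h : ω ∈ slice S r
      · have h' : polarCoord.symm (r, ω) ∈ S := h
        rw [indicator_of_mem h, indicator_of_mem h']; rfl
      · have h' : polarCoord.symm (r, ω) ∉ S := h
        rw [indicator_of_notMem h, indicator_of_notMem h']; rfl
    simp only [this]
    rw [lintegral_const_mul _ (measurable_one.indicator (slice_meas hS r)),
      lintegral_indicator_one (slice_meas hS r), Measure.restrict_apply (slice_meas hS r)]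
  · refine Measurable.aemeasurable ?_
    refine (ENNReal.measurable_ofReal.comp measurable_fst).mul ?_
    exact (measurable_one.indicator hS).comp pol_cont.measurable

lemma lint_lin (c Y : ℝ) (hc : 0 ≤ c) (hY : 0 ≤ Y) :
    ∫⁻ y in Ioo (0 : ℝ) Y, ENNReal.ofReal y * ENNReal.ofReal c = ENNReal.ofReal (c * Y ^ 2 / 2) := by
  have e : ∫⁻ y in Ioo (0 : ℝ) Y, ENNReal.ofReal y * ENNReal.ofReal c
      = ∫⁻ y in Ioo (0 : ℝ) Y, ENNReal.ofReal (y * c) :=
    setLIntegral_congr_fun measurableSet_Ioo fun y hy => by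
      rw [ENNReal.ofReal_mul hy.1.le]
  rw [e, ← ofReal_integral_eq_lintegral_ofReal]
  · rw [← integral_Ioc_eq_integral_Ioo, ← intervalIntegral.integral_of_le hY]
    simp
    ring_nf
  · exact ((by fun_prop : Continuous fun y : ℝ => y * c).integrableOn_Icc (a := 0) (b := Y)).mono_set
      Ioo_subset_Icc_self
  · filter_upwards [ae_restrict_mem measurableSet_Ioo] with y hy
    exact mul_nonneg hy.1.le hc

lemma vol_lower {S : Set (ℝ × ℝ)} (hS : MeasurableSet S) {ρ Y : ℝ} (hρ : 0 < ρ)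
    (hD : ∀ p, nsq p < ρ ^ 2 → p ∈ S) :
    ENNReal.ofReal (π * ρ ^ 2) + ∫⁻ y in Ioo (0 : ℝ) Y,
      ENNReal.ofReal y * volume (slice S (√(ρ ^ 2 + y ^ 2)) ∩ Ioo (-π) π) ≤ volume S := by
  rw [vol_polar hS]
  set f : ℝ → ℝ := fun y => √(ρ ^ 2 + y ^ 2) with hf
  have fpos : ∀ y, 0 < f y := fun y => sqrt_pos.mpr (by positivity)
  have fder : ∀ y ∈ Ioo (0 : ℝ) Y, HasDerivWithinAt f (y / f y) (Ioo 0 Y) y := by
    intro y _
    have h1 : HasDerivAt (fun y : ℝ => ρ ^ 2 + y ^ 2) (2 * y) y := by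
      simpa using (hasDerivAt_pow 2 y).const_add (ρ ^ 2)
    have h2 := h1.sqrt (by positivity)
    refine HasDerivAt.hasDerivWithinAt ?_
    have e : y / f y = 2 * y / (2 * √(ρ ^ 2 + y ^ 2)) := by
      simp only [hf]
      rw [mul_div_mul_left _ _ two_ne_zero]
    rw [e]
    exact h2
  have finj : InjOn f (Ioo 0 Y) := by
    intro a ha b hb h
    have := (sqrt_inj (by positivity) (by positivity)).mp h
    have h2 : a ^ 2 = b ^ 2 := by linarith
    exact (pow_left_inj₀ ha.1.le hb.1.le two_ne_zero).mp h2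
  have cv := lintegral_image_eq_lintegral_abs_deriv_mul measurableSet_Ioo fder finj
    (fun r => ENNReal.ofReal r * volume (slice S r ∩ Ioo (-π) π))
  have e2 : ∫⁻ y in Ioo (0 : ℝ) Y, ENNReal.ofReal y * volume (slice S (f y) ∩ Ioo (-π) π)
      = ∫⁻ r in f '' Ioo 0 Y, ENNReal.ofReal r * volume (slice S r ∩ Ioo (-π) π) := by
    rw [cv]
    refine setLIntegral_congr_fun measurableSet_Ioo fun y hy => ?_
    rw [← mul_assoc, ← ENNReal.ofReal_mul (abs_nonneg _), abs_of_pos (div_pos hy.1 (fpos y)),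
      div_mul_cancel₀ _ (fpos y).ne']
  have e1 : ENNReal.ofReal (π * ρ ^ 2)
      = ∫⁻ r in Ioo 0 ρ, ENNReal.ofReal r * volume (slice S r ∩ Ioo (-π) π) := by
    have : ∫⁻ r in Ioo 0 ρ, ENNReal.ofReal r * volume (slice S r ∩ Ioo (-π) π)
        = ∫⁻ r in Ioo 0 ρ, ENNReal.ofReal r * ENNReal.ofReal (2 * π) := by
      refine setLIntegral_congr_fun measurableSet_Ioo fun r hr => ?_
      have : slice S r = univ := by
        refine eq_univ_of_forall fun ω => hD _ ?_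
        rw [nsq_pol]
        exact pow_lt_pow_left₀ hr.2 hr.1.le two_ne_zero
      simp only [this, univ_inter, volume_Ioo]
      congr 2
      ring
    rw [this, lint_lin _ _ (by positivity) hρ.le]
    congr 1
    ring
  have sub : f '' Ioo 0 Y ⊆ Ici ρ := by
    rintro _ ⟨y, _, rfl⟩
    exact le_sqrt_of_sq_le (by nlinarith [sq_nonneg y])
  rw [e2, e1]
  refine (add_le_add_right (lintegral_mono_set sub) _).trans ?_
  rw [← lintegral_union measurableSet_Ici]
  · refine lintegral_mono_set ?_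
    rintro r (hr | hr)
    · exact hr.1
    · exact lt_of_lt_of_le hρ hr
  · rw [disjoint_left]
    intro r hr hr2
    exact absurd hr.2 (not_lt.mpr hr2)

lemma lint_arctan {ρ Y : ℝ} (hρ : 0 < ρ) (hY : 0 ≤ Y) :
    ∫⁻ y in Ioo (0 : ℝ) Y, ENNReal.ofReal y * ENNReal.ofReal (6 * arctan (y / ρ))
      = ENNReal.ofReal (3 * ((ρ ^ 2 + Y ^ 2) * arctan (Y / ρ) - ρ * Y)) := by
  have e : ∫⁻ y in Ioo (0 : ℝ) Y, ENNReal.ofReal y * ENNReal.ofReal (6 * arctan (y / ρ))
      = ∫⁻ y in Ioo (0 : ℝ) Y, ENNReal.ofReal (y * (6 * arctan (y / ρ))) :=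
    setLIntegral_congr_fun measurableSet_Ioo fun y hy => by
      rw [ENNReal.ofReal_mul hy.1.le]
  have hc : Continuous fun y : ℝ => y * (6 * arctan (y / ρ)) :=
    continuous_id.mul (continuous_const.mul (continuous_arctan.comp (by fun_prop)))
  rw [e, ← ofReal_integral_eq_lintegral_ofReal]
  · rw [← integral_Ioc_eq_integral_Ioo, ← intervalIntegral.integral_of_le hY]
    congr 1
    have hd : ∀ y ∈ uIcc 0 Y, HasDerivAt
        (fun y : ℝ => 3 * ((ρ ^ 2 + y ^ 2) * arctan (y / ρ) - ρ * y))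
        (y * (6 * arctan (y / ρ))) y := by
      intro y _
      have h1 : HasDerivAt (fun y : ℝ => ρ ^ 2 + y ^ 2) (2 * y) y := by
        simpa using (hasDerivAt_pow 2 y).const_add (ρ ^ 2)
      have h2 := ((hasDerivAt_id y).div_const ρ).arctan
      have h3 := ((h1.mul h2).sub ((hasDerivAt_id y).const_mul ρ)).const_mul 3
      refine h3.congr_deriv ?_
      simp only [id]
      field_simp
      ring
    rw [intervalIntegral.integral_eq_sub_of_hasDerivAt hd (hc.intervalIntegrable _ _)]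
    simp
  · exact (hc.integrableOn_Icc (a := 0) (b := Y)).mono_set Ioo_subset_Icc_self
  · filter_upwards [ae_restrict_mem measurableSet_Ioo] with y hy
    exact mul_nonneg hy.1.le (mul_nonneg (by norm_num)
      (arctan_nonneg.mpr (div_nonneg hy.1.le hρ.le)))

lemma push_out {s r u c : ℝ} (hs : 0 < s) (hsr : s ≤ r) (hu : u ^ 2 ≤ 1)
    (h : 1 ≤ s ^ 2 + u ^ 2 - 2 * s * u * c) : 1 ≤ r ^ 2 + u ^ 2 - 2 * r * u * c := by
  have h1 : s * (r ^ 2 + u ^ 2 - 2 * r * u * c - 1)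
      = r * (s ^ 2 + u ^ 2 - 2 * s * u * c - 1) + (r - s) * (s * r + (1 - u ^ 2)) := by ring
  have h2 : 0 ≤ s * (r ^ 2 + u ^ 2 - 2 * r * u * c - 1) := by
    rw [h1]
    have : 0 < r := lt_of_lt_of_le hs hsr
    have a1 : 0 ≤ r * (s ^ 2 + u ^ 2 - 2 * s * u * c - 1) := mul_nonneg this.le (by linarith)
    have a2 : 0 ≤ (r - s) * (s * r + (1 - u ^ 2)) :=
      mul_nonneg (by linarith) (by nlinarith [mul_pos hs this])
    linarith
  have := nonneg_of_mul_nonneg_right h2 hs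
  linarith

lemma cos_theta {a b y : ℝ} (ha : 0 < a) (hb : 0 < b) :
    cos (π - arctan (y / a) - arctan (y / b)) * (√(a ^ 2 + y ^ 2) * √(b ^ 2 + y ^ 2))
      = y ^ 2 - a * b := by
  have k : ∀ c : ℝ, 0 < c → √(c ^ 2 + y ^ 2) = c * √(1 + (y / c) ^ 2) := by
    intro c hc
    rw [← sqrt_sq hc.le, ← sqrt_mul (sq_nonneg _), sqrt_sq hc.le]
    congr 1
    field_simp
  have p1 : 0 < √(1 + (y / a) ^ 2) := sqrt_pos.mpr (by positivity)
  have p2 : 0 < √(1 + (y / b) ^ 2) := sqrt_pos.mpr (by positivity)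
  rw [sub_sub, cos_pi_sub, cos_add, cos_arctan, cos_arctan, sin_arctan, sin_arctan, k a ha, k b hb]
  field_simp
  ring

lemma one_colour {A B : Set (ℝ × ℝ)} (hA : MeasurableSet A) (hB : MeasurableSet B)
    {a b φ γ y : ℝ} (hb : 0 < b) (hba : b ≤ a) (hab : a + b = 1) (hφ : a ^ 2 ≤ φ)
    (hφγ : φ - a ^ 2 = γ - b ^ 2) (hy : 0 < y) (hy1 : a ^ 2 + y ^ 2 < 1)
    (A1 : ∀ p ∈ A, φ ≤ nsq p) (A2 : φ < 1 → ∃ p ∈ A, nsq p = φ)
    (B1 : ∀ p ∈ B, γ ≤ nsq p) (B2 : γ < 1 → ∃ p ∈ B, nsq p = γ)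
    (hd : ∀ p ∈ A, ∀ q ∈ B, 1 ≤ nsq (p - q)) :
    volume (slice A (√(a ^ 2 + y ^ 2)) ∩ Ioo (-π) π)
      + volume (slice B (√(b ^ 2 + y ^ 2)) ∩ Ioo (-π) π)
      ≤ ENNReal.ofReal (2 * arctan (y / a) + 2 * arctan (y / b)) := by
  have ha : 0 < a := lt_of_lt_of_le hb hba
  have hb2 : b ^ 2 ≤ a ^ 2 := pow_le_pow_left₀ hb.le hba 2
  set r := √(a ^ 2 + y ^ 2) with hr
  set s := √(b ^ 2 + y ^ 2) with hs
  have r2 : r ^ 2 = a ^ 2 + y ^ 2 := sq_sqrt (by positivity)
  have s2 : s ^ 2 = b ^ 2 + y ^ 2 := sq_sqrt (by positivity)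
  have r0 : 0 < r := sqrt_pos.mpr (by positivity)
  have s0 : 0 < s := sqrt_pos.mpr (by positivity)
  by_cases hc : a ^ 2 + y ^ 2 < φ
  · have e1 : slice A r = ∅ := by
      refine eq_empty_of_forall_notMem fun ω h => ?_
      have := A1 _ h
      rw [nsq_pol] at this
      linarith
    have e2 : slice B s = ∅ := by
      refine eq_empty_of_forall_notMem fun ω h => ?_
      have := B1 _ h
      rw [nsq_pol] at this
      linarith
    simp [e1, e2]
  push Not at hc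
  obtain ⟨p, hp, hp2⟩ := A2 (by linarith)
  obtain ⟨q, hq, hq2⟩ := B2 (by linarith)
  have φ0 : 0 < φ := lt_of_lt_of_le (by positivity) hφ
  have γ0 : 0 < γ := by nlinarith [sq_pos_of_pos hb]
  obtain ⟨ω, hω⟩ := exists_pol p (by rw [hp2]; exact φ0)
  obtain ⟨η, hη⟩ := exists_pol q (by rw [hq2]; exact γ0)
  rw [hp2] at hω
  rw [hq2] at hη
  have t1 := arctan_lt_pi_div_two (y / a)
  have t2 := arctan_lt_pi_div_two (y / b)
  have t3 : 0 ≤ arctan (y / a) := arctan_nonneg.mpr (by positivity)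
  have t4 : 0 ≤ arctan (y / b) := arctan_nonneg.mpr (by positivity)
  have := circle (slice A r) (slice B s) (slice_meas hA r) (slice_meas hB s) (slice_per A r)
    (slice_per B s) ω η (π - arctan (y / a) - arctan (y / b)) (by linarith) (by linarith) (by
      intro x hx z hz
      obtain ⟨r', h1, h2, h3⟩ : ∃ r', 0 < r' ∧ r' ≤ r ∧ pol r' x ∈ A := by
        rcases hx with rfl | hx
        · exact ⟨√φ, sqrt_pos.mpr φ0, sqrt_le_sqrt hc, hω ▸ hp⟩
        · exact ⟨r, r0, le_rfl, hx⟩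
      obtain ⟨s', h4, h5, h6⟩ : ∃ s', 0 < s' ∧ s' ≤ s ∧ pol s' z ∈ B := by
        rcases hz with rfl | hz
        · exact ⟨√γ, sqrt_pos.mpr γ0, sqrt_le_sqrt (by linarith), hη ▸ hq⟩
        · exact ⟨s, s0, le_rfl, hz⟩
      have k := hd _ h3 _ h6
      rw [nsq_pol_sub] at k
      have k1 := push_out h1 h2 (by nlinarith) k
      have k2 := push_out (s := s') (r := s) (u := r) (c := cos (x - z)) h4 h5 (by linarith)
        (by linarith)
      have k3 := cos_theta (y := y) ha hb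
      rw [← hr, ← hs] at k3
      have k4 : cos (x - z) * (r * s)
          ≤ cos (π - arctan (y / a) - arctan (y / b)) * (r * s) := by
        rw [k3]
        have : (a + b) ^ 2 = 1 := by rw [hab]; norm_num
        nlinarith
      exact le_of_mul_le_mul_right k4 (mul_pos r0 s0))
  refine this.trans (le_of_eq ?_)
  congr 1
  ring

lemma G_bound {ψ : ℝ} (h0 : 0 ≤ ψ) (h1 : ψ ≤ π / 3) :
    3 * √3 / 2 ≤ (π - 3 * ψ) * cos ψ + 3 * sin ψ := by
  have hd : ∀ x : ℝ, HasDerivAt (fun x => (π - 3 * x) * cos x + 3 * sin x)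
      (-((π - 3 * x) * sin x)) x := by
    intro x
    have h1 := (((hasDerivAt_id x).const_mul 3).const_sub π).mul (hasDerivAt_cos x)
    have h2 := h1.add ((hasDerivAt_sin x).const_mul 3)
    refine h2.congr_deriv ?_
    simp only [id]
    ring
  have hanti : AntitoneOn (fun x => (π - 3 * x) * cos x + 3 * sin x) (Icc 0 (π / 3)) := by
    refine antitoneOn_of_deriv_nonpos (convex_Icc _ _) (by fun_prop)
      (fun x _ => (hd x).differentiableAt.differentiableWithinAt) fun x hx => ?_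
    rw [(hd x).deriv]
    rw [interior_Icc] at hx
    have := sin_nonneg_of_nonneg_of_le_pi hx.1.le (by linarith [hx.2, pi_pos])
    have : 0 ≤ (π - 3 * x) * sin x := mul_nonneg (by linarith [hx.2]) this
    linarith
  have := hanti ⟨h0, h1⟩ ⟨by positivity, le_rfl⟩ h1
  simp only [sin_pi_div_three] at this
  have e : π - 3 * (π / 3) = 0 := by ring
  rw [e] at this
  linarith

lemma nsq_meas : MeasurableSet {p : ℝ × ℝ | nsq p < 1} := by
  refine measurableSet_lt ?_ measurable_const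
  unfold nsq; fun_prop

lemma cover_arc (A : Fin 3 → Set (ℝ × ℝ)) {r : ℝ} (hr : r ^ 2 < 1) :
    ENNReal.ofReal (2 * π) ≤ volume (slice ({p | nsq p < 1} \ ⋃ i, A i) r ∩ Ioo (-π) π)
      + ∑ i, volume (slice (A i) r ∩ Ioo (-π) π) := by
  have sub : Ioo (-π) π ⊆ (slice ({p | nsq p < 1} \ ⋃ i, A i) r ∩ Ioo (-π) π) ∪
      ⋃ i, (slice (A i) r ∩ Ioo (-π) π) := by
    intro ω hω
    by_cases h : pol r ω ∈ ⋃ i, A i
    · obtain ⟨i, hi⟩ := mem_iUnion.mp h
      exact Or.inr (mem_iUnion.mpr ⟨i, hi, hω⟩)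
    · exact Or.inl ⟨⟨show nsq _ < 1 by rw [nsq_pol]; exact hr, h⟩, hω⟩
  have e : ENNReal.ofReal (2 * π) = volume (Ioo (-π) π) := by
    rw [volume_Ioo]; congr 1; ring
  rw [e]
  refine (measure_mono sub).trans ((measure_union_le _ _).trans ?_)
  exact add_le_add_right (measure_iUnion_fintype_le _ _) _

theorem planar (A B : Fin 3 → Set (ℝ × ℝ)) (hA : ∀ i, MeasurableSet (A i))
    (hB : ∀ i, MeasurableSet (B i)) (φ γ : Fin 3 → ℝ) (t : ℝ) (ht : 0 ≤ t)
    (hφγ : ∀ i, φ i - γ i = t) (hγ : ∀ i, 0 ≤ γ i) (hφ : ∀ i, φ i ≤ 1)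
    (A1 : ∀ i, ∀ p ∈ A i, φ i ≤ nsq p) (A2 : ∀ i, φ i < 1 → ∃ p ∈ A i, nsq p = φ i)
    (B1 : ∀ i, ∀ p ∈ B i, γ i ≤ nsq p) (B2 : ∀ i, γ i < 1 → ∃ p ∈ B i, nsq p = γ i)
    (hd : ∀ i, ∀ p ∈ A i, ∀ q ∈ B i, 1 ≤ nsq (p - q)) :
    ENNReal.ofReal (3 * √3 / 2) ≤ volume ({p | nsq p < 1} \ ⋃ i, A i)
      + volume ({p | nsq p < 1} \ ⋃ i, B i) := by
  have ht1 : t ≤ 1 := by linarith [hφγ 0, hγ 0, hφ 0]
  obtain ⟨a, ha⟩ : ∃ a : ℝ, a = (1 + t) / 2 := ⟨_, rfl⟩
  obtain ⟨b, hb⟩ : ∃ b : ℝ, b = (1 - t) / 2 := ⟨_, rfl⟩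
  have hab : a + b = 1 := by rw [ha, hb]; ring
  have hsq : a ^ 2 - b ^ 2 = t := by rw [ha, hb]; ring
  have a0 : 1 / 2 ≤ a := by rw [ha]; linarith
  have a1 : a ≤ 1 := by rw [ha]; linarith
  have b0 : 0 ≤ b := by rw [hb]; linarith
  have hba : b ≤ a := by rw [ha, hb]; linarith
  have hφa : ∀ i, a ^ 2 ≤ φ i := by
    intro i
    by_contra hc
    push Not at hc
    have e := hφγ i
    obtain ⟨p, hp, hp2⟩ := A2 i (by nlinarith)
    obtain ⟨q, hq, hq2⟩ := B2 i (by nlinarith)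
    have k := hd i p hp q hq
    have g0 := hγ i
    have cs : (p.1 * q.1 + p.2 * q.2) ^ 2 ≤ (a * b) ^ 2 := by
      have : (p.1 * q.1 + p.2 * q.2) ^ 2 ≤ nsq p * nsq q := by
        unfold nsq; nlinarith [sq_nonneg (p.1 * q.2 - p.2 * q.1)]
      rw [hp2, hq2] at this
      refine this.trans ?_
      rw [mul_pow]
      exact mul_le_mul hc.le (by linarith) g0 (by positivity)
    have cs2 := abs_le_of_sq_le_sq' cs (by positivity)
    have e2 : nsq (p - q) = nsq p + nsq q - 2 * (p.1 * q.1 + p.2 * q.2) := by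
      simp only [nsq, Prod.fst_sub, Prod.snd_sub]; ring
    have : (a + b) ^ 2 = 1 := by rw [hab]; norm_num
    rw [e2, hp2, hq2] at k
    nlinarith [cs2.1]
  have mA : MeasurableSet ({p | nsq p < 1} \ ⋃ i, A i) := nsq_meas.diff (MeasurableSet.iUnion hA)
  have mB : MeasurableSet ({p | nsq p < 1} \ ⋃ i, B i) := nsq_meas.diff (MeasurableSet.iUnion hB)
  have DA : ∀ p, nsq p < a ^ 2 → p ∈ {p | nsq p < 1} \ ⋃ i, A i := by
    intro p hp
    refine ⟨show nsq p < 1 by nlinarith, fun h => ?_⟩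
    obtain ⟨i, hi⟩ := mem_iUnion.mp h
    linarith [A1 i p hi, hφa i]
  have DB : ∀ p, nsq p < b ^ 2 → p ∈ {p | nsq p < 1} \ ⋃ i, B i := by
    intro p hp
    refine ⟨show nsq p < 1 by nlinarith, fun h => ?_⟩
    obtain ⟨i, hi⟩ := mem_iUnion.mp h
    linarith [B1 i p hi, hφa i, hφγ i]
  have s3 : √3 < 2 := by
    rw [sqrt_lt' (by norm_num)]; norm_num
  rcases b0.eq_or_lt with hb0 | hb0
  · have a1' : a = 1 := by linarith
    have := vol_lower mA (ρ := a) (Y := 0) (by linarith) DA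
    refine le_trans ?_ (le_self_add.trans (add_le_add_left this _)) 
    refine le_trans (ENNReal.ofReal_le_ofReal ?_) le_self_add
    rw [a1']
    linarith [pi_gt_three]
  have a2 : a < 1 := by linarith
  have apos : 0 < a := by linarith
  set ψ := arccos a with hψ
  have cψ : cos ψ = a := cos_arccos (by linarith) a1
  have ψ0 : 0 < ψ := arccos_pos.mpr a2
  have ψ1 : ψ ≤ π / 3 := by
    have : arccos (1 / 2) = π / 3 := by
      rw [← cos_pi_div_three, arccos_cos (by positivity) (by linarith [pi_pos])]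
    rw [← this]
    exact arccos_le_arccos a0
  have hpi := pi_pos
  set Y := sin ψ with hY
  have Y0 : 0 < Y := sin_pos_of_pos_of_lt_pi ψ0 (by linarith)
  have Y2 : a ^ 2 + Y ^ 2 = 1 := by rw [← cψ]; exact cos_sq_add_sin_sq ψ
  have tA : arctan (Y / a) = ψ := by
    rw [hY, ← cψ, ← tan_eq_sin_div_cos, arctan_tan (by linarith) (by linarith)]
  have tB : arctan (Y / b) = π / 2 - ψ / 2 := by
    have s0 : 0 < sin (ψ / 2) := sin_pos_of_pos_of_lt_pi (by linarith) (by linarith)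
    have c0 : 0 < cos (ψ / 2) := cos_pos_of_mem_Ioo ⟨by linarith, by linarith⟩
    have e1 : Y = 2 * sin (ψ / 2) * cos (ψ / 2) := by
      rw [← sin_two_mul, hY]; congr 1; ring
    have e2 : b = 2 * sin (ψ / 2) ^ 2 := by
      have := cos_two_mul (ψ / 2)
      rw [show 2 * (ψ / 2) = ψ by ring, cψ] at this
      nlinarith [cos_sq_add_sin_sq (ψ / 2)]
    have e3 : Y / b = tan (π / 2 - ψ / 2) := by
      rw [tan_pi_div_two_sub, tan_eq_sin_div_cos, e1, e2]
      field_simp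
    rw [e3, arctan_tan (by linarith) (by linarith)]
  have vA := vol_lower mA (ρ := a) (Y := Y) apos DA
  have vB := vol_lower mB (ρ := b) (Y := Y) hb0 DB
  have jA := lint_arctan apos Y0.le
  have jB := lint_arctan hb0 Y0.le
  have fa : Continuous fun y : ℝ => √(a ^ 2 + y ^ 2) := by fun_prop
  have fb : Continuous fun y : ℝ => √(b ^ 2 + y ^ 2) := by fun_prop
  have m1 : Measurable fun y : ℝ => ENNReal.ofReal y *
      volume (slice ({p | nsq p < 1} \ ⋃ i, A i) (√(a ^ 2 + y ^ 2)) ∩ Ioo (-π) π) :=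
    ENNReal.measurable_ofReal.mul (arc_meas mA fa)
  have m2 : Measurable fun y : ℝ => ENNReal.ofReal y *
      volume (slice ({p | nsq p < 1} \ ⋃ i, B i) (√(b ^ 2 + y ^ 2)) ∩ Ioo (-π) π) :=
    ENNReal.measurable_ofReal.mul (arc_meas mB fb)
  have m3 : Measurable fun y : ℝ => ENNReal.ofReal y * ENNReal.ofReal (6 * arctan (y / a)) :=
    ENNReal.measurable_ofReal.mul (ENNReal.measurable_ofReal.comp
      (continuous_const.mul (continuous_arctan.comp (by fun_prop))).measurable)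
  have main : ENNReal.ofReal (4 * π * Y ^ 2 / 2) ≤
      (∫⁻ y in Ioo (0 : ℝ) Y, ENNReal.ofReal y *
        volume (slice ({p | nsq p < 1} \ ⋃ i, A i) (√(a ^ 2 + y ^ 2)) ∩ Ioo (-π) π))
      + ((∫⁻ y in Ioo (0 : ℝ) Y, ENNReal.ofReal y *
        volume (slice ({p | nsq p < 1} \ ⋃ i, B i) (√(b ^ 2 + y ^ 2)) ∩ Ioo (-π) π))
      + (ENNReal.ofReal (3 * ((a ^ 2 + Y ^ 2) * arctan (Y / a) - a * Y))
      + ENNReal.ofReal (3 * ((b ^ 2 + Y ^ 2) * arctan (Y / b) - b * Y)))) := by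
    rw [← jA, ← jB, ← lint_lin _ _ (by positivity) Y0.le, ← lintegral_add_left m3,
      ← lintegral_add_left m2, ← lintegral_add_left m1]
    refine setLIntegral_mono' measurableSet_Ioo fun y hy => ?_
    rw [← mul_add, ← mul_add, ← mul_add]
    refine mul_le_mul_right ?_ _
    have y2 : y ^ 2 < Y ^ 2 := pow_lt_pow_left₀ hy.2 hy.1.le two_ne_zero
    have c1 := cover_arc A (r := √(a ^ 2 + y ^ 2)) (by rw [sq_sqrt (by positivity)]; linarith)
    have c2 := cover_arc B (r := √(b ^ 2 + y ^ 2)) (by rw [sq_sqrt (by positivity)]; nlinarith)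
    have c3 : ∑ i, volume (slice (A i) (√(a ^ 2 + y ^ 2)) ∩ Ioo (-π) π)
        + ∑ i, volume (slice (B i) (√(b ^ 2 + y ^ 2)) ∩ Ioo (-π) π)
        ≤ ENNReal.ofReal (6 * arctan (y / a)) + ENNReal.ofReal (6 * arctan (y / b)) := by
      have t3 : 0 ≤ arctan (y / a) := arctan_nonneg.mpr (div_nonneg hy.1.le apos.le)
      have t4 : 0 ≤ arctan (y / b) := arctan_nonneg.mpr (div_nonneg hy.1.le hb0.le)
      rw [← Finset.sum_add_distrib]
      refine (Finset.sum_le_sum fun i _ => one_colour (hA i) (hB i) hb0 hba hab (hφa i)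
        (by linarith [hφγ i]) hy.1 (by linarith) (A1 i) (A2 i) (B1 i) (B2 i) (hd i)).trans ?_
      rw [Fin.sum_univ_three, ← ENNReal.ofReal_add (by positivity) (by positivity),
        ← ENNReal.ofReal_add (by positivity) (by positivity),
        ← ENNReal.ofReal_add (by positivity) (by positivity)]
      exact ENNReal.ofReal_le_ofReal (by linarith)
    have e4 : ENNReal.ofReal (4 * π) = ENNReal.ofReal (2 * π) + ENNReal.ofReal (2 * π) := by
      rw [← ENNReal.ofReal_add (by positivity) (by positivity)]; congr 1; ring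
    rw [e4]
    refine (add_le_add c1 c2).trans ?_
    rw [add_add_add_comm, ← add_assoc _ _ (_ + _)]
    exact add_le_add_right c3 _
  rw [tA, tB] at main
  have G := G_bound ψ0.le ψ1
  rw [cψ, ← hY] at G
  have n1 : 0 ≤ 3 * ((a ^ 2 + Y ^ 2) * ψ - a * Y) := by
    have : Y ≤ ψ := sin_le ψ0.le
    rw [Y2]; nlinarith
  have eb : b ^ 2 + Y ^ 2 = 2 * b := by
    have : a = 1 - b := by linarith
    rw [this] at Y2; linarith
  have n2 : 0 ≤ 3 * ((b ^ 2 + Y ^ 2) * (π / 2 - ψ / 2) - b * Y) := by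
    have : Y ≤ 1 := sin_le_one ψ
    rw [eb]
    have : 0 ≤ b * (π - ψ - Y) := mul_nonneg b0 (by linarith [pi_gt_three])
    nlinarith
  set JA := 3 * ((a ^ 2 + Y ^ 2) * ψ - a * Y) with hJA
  set JB := 3 * ((b ^ 2 + Y ^ 2) * (π / 2 - ψ / 2) - b * Y) with hJB
  have fin : ENNReal.ofReal JA + ENNReal.ofReal JB ≠ ⊤ :=
    ENNReal.add_ne_top.mpr ⟨ENNReal.ofReal_ne_top, ENNReal.ofReal_ne_top⟩
  rw [← ENNReal.add_le_add_iff_right fin]
  calc ENNReal.ofReal (3 * √3 / 2) + (ENNReal.ofReal JA + ENNReal.ofReal JB)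
      ≤ ENNReal.ofReal (π * a ^ 2) + ENNReal.ofReal (π * b ^ 2)
        + ENNReal.ofReal (4 * π * Y ^ 2 / 2) := by
        rw [← ENNReal.ofReal_add n1 n2, ← ENNReal.ofReal_add (by positivity) (by positivity),
          ← ENNReal.ofReal_add (by positivity) (by positivity),
          ← ENNReal.ofReal_add (by positivity) (by positivity)]
        refine ENNReal.ofReal_le_ofReal ?_
        have e5 : π * a ^ 2 + π * b ^ 2 + 4 * π * Y ^ 2 / 2
            = π * (a ^ 2 + Y ^ 2) + π * (b ^ 2 + Y ^ 2) := by ring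
        rw [e5, hJA, hJB, eb, Y2]
        have : b = 1 - a := by linarith
        rw [this]
        linarith
    _ ≤ _ := by
        refine (add_le_add_right main _).trans ?_
        refine le_trans (le_of_eq ?_) (add_le_add_left (add_le_add vA vB) _)
        ring

end Pool.Agent.Lib.MP_f73bef_pr
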