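import Pool.Agent.Lib.MP_f73bef_pr.Seven

namespace Pool.Agent.Lib.MP_f73bef_pr

open MeasureTheory Set Real

lemma second_moment {Ω ι : Type} [MeasurableSpace Ω] (P : Measure Ω) [IsProbabilityMeasure P]
    (s : Finset ι) (A : ι → Set Ω) (hA : ∀ i, MeasurableSet (A i)) {u : ℝ}
    (h1 : ∀ i ∈ s, P.real (A i) = u)
    (h2 : ∀ i ∈ s, ∀ j ∈ s, i ≠ j → P.real (A i ∩ A j) ≤ u ^ 2) :
    P.real {x | ∀ i ∈ s, x ∉ A i} * (s.card * u) ^ 2 ≤ s.card * u := by
  classical
  set m : ℝ := s.card * u with hm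
  have mB : MeasurableSet {x | ∀ i ∈ s, x ∉ A i} := by
    have : {x | ∀ i ∈ s, x ∉ A i} = (⋃ i ∈ s, A i)ᶜ := by ext x; simp
    rw [this]
    exact (Finset.measurableSet_biUnion _ fun i _ => hA i).compl
  have int : ∀ {B : Set Ω}, MeasurableSet B → Integrable (B.indicator (1 : Ω → ℝ)) P :=
    fun hB => (integrable_const (1 : ℝ)).indicator hB
  have pt : ∀ x, ({x | ∀ i ∈ s, x ∉ A i}.indicator (1 : Ω → ℝ) x) * m ^ 2 ≤
      (∑ i ∈ s, ∑ j ∈ s, (A i ∩ A j).indicator (1 : Ω → ℝ) x)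
        - 2 * m * (∑ i ∈ s, (A i).indicator (1 : Ω → ℝ) x) + m ^ 2 := by
    intro x
    have e : ∑ i ∈ s, ∑ j ∈ s, (A i ∩ A j).indicator (1 : Ω → ℝ) x
        = (∑ i ∈ s, (A i).indicator (1 : Ω → ℝ) x) ^ 2 := by
      rw [sq, Finset.sum_mul_sum]
      refine Finset.sum_congr rfl fun i _ => Finset.sum_congr rfl fun j _ => ?_
      rw [inter_indicator_one, Pi.mul_apply]
    rw [e]
    by_cases hx : x ∈ {x | ∀ i ∈ s, x ∉ A i}
    · have : ∑ i ∈ s, (A i).indicator (1 : Ω → ℝ) x = 0 :=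
        Finset.sum_eq_zero fun i hi => indicator_of_notMem (hx i hi) _
      rw [this, indicator_of_mem hx]
      simp
    · rw [indicator_of_notMem hx]
      nlinarith [sq_nonneg (∑ i ∈ s, (A i).indicator (1 : Ω → ℝ) x - m)]
  have i1 : Integrable (fun x => ∑ i ∈ s, ∑ j ∈ s, (A i ∩ A j).indicator (1 : Ω → ℝ) x) P :=
    integrable_finsetSum _ fun i _ => integrable_finsetSum _ fun j _ => int ((hA i).inter (hA j))
  have i2 : Integrable (fun x => 2 * m * ∑ i ∈ s, (A i).indicator (1 : Ω → ℝ) x) P :=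
    (integrable_finsetSum _ fun i _ => int (hA i)).const_mul _
  have i3 : Integrable (fun x => (∑ i ∈ s, ∑ j ∈ s, (A i ∩ A j).indicator (1 : Ω → ℝ) x)
      - 2 * m * ∑ i ∈ s, (A i).indicator (1 : Ω → ℝ) x) P := i1.sub i2
  have := integral_mono ((int mB).mul_const (m ^ 2)) (i3.add (integrable_const (m ^ 2))) pt
  simp only [Pi.add_apply] at this
  rw [integral_mul_const, integral_indicator_one mB, integral_add i3 (integrable_const _),
    integral_sub i1 i2, integral_const_mul, integral_finsetSum _ fun i _ => int (hA i),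
    integral_finsetSum _ fun i _ => integrable_finsetSum _ fun j _ => int ((hA i).inter (hA j))]
    at this
  have e1 : ∑ i ∈ s, ∫ x, (A i).indicator (1 : Ω → ℝ) x ∂P = m := by
    rw [Finset.sum_congr rfl fun i hi => (integral_indicator_one (hA i)).trans (h1 i hi)]
    simp [hm]
  have e2 : ∑ i ∈ s, ∫ x, ∑ j ∈ s, (A i ∩ A j).indicator (1 : Ω → ℝ) x ∂P ≤ m + m ^ 2 := by
    have : ∀ i ∈ s, ∫ x, ∑ j ∈ s, (A i ∩ A j).indicator (1 : Ω → ℝ) x ∂P
        ≤ u + s.card * u ^ 2 := by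
      intro i hi
      rw [integral_finsetSum _ fun j _ => int ((hA i).inter (hA j))]
      have : ∀ j ∈ s, ∫ x, (A i ∩ A j).indicator (1 : Ω → ℝ) x ∂P
          ≤ (if i = j then u else 0) + u ^ 2 := by
        intro j hj
        rw [integral_indicator_one ((hA i).inter (hA j))]
        by_cases e : i = j
        · subst e
          rw [inter_self, h1 i hi, if_pos rfl]
          nlinarith [sq_nonneg u]
        · rw [if_neg e, zero_add]
          exact h2 i hi j hj e
      refine (Finset.sum_le_sum this).trans (le_of_eq ?_)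
      rw [Finset.sum_add_distrib, Finset.sum_ite_eq, if_pos hi]
      simp
    refine (Finset.sum_le_sum this).trans (le_of_eq ?_)
    simp only [Finset.sum_const, nsmul_eq_mul, hm]
    ring
  rw [e1] at this
  simp only [integral_const, probReal_univ, smul_eq_mul, one_mul] at this
  nlinarith

noncomputable def gp (s : ℝ) (ab : ℕ × ℕ) : E3 :=
  !₂[ab.1 * s, ab.2 * s, √(1 - (ab.1 * s) ^ 2 - (ab.2 * s) ^ 2)]

lemma gp_facts {s : ℝ} (hs : 0 < s) {M : ℕ} (hM : M * s ≤ 1 / 2) {ab : ℕ × ℕ}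
    (h : ab ∈ Finset.range M ×ˢ Finset.range M) : ‖gp s ab‖ = 1 ∧ 2 / 3 ≤ gp s ab 2 := by
  obtain ⟨h1, h2⟩ := Finset.mem_product.mp h
  have k : ∀ a ∈ Finset.range M, ((a : ℝ) * s) ^ 2 ≤ 1 / 4 := by
    intro a ha
    have : (a : ℝ) ≤ M := by exact_mod_cast (Finset.mem_range.mp ha).le
    have : a * s ≤ 1 / 2 := (mul_le_mul_of_nonneg_right this hs.le).trans hM
    have : 0 ≤ a * s := by positivity
    nlinarith
  have k1 := k _ h1
  have k2 := k _ h2
  constructor
  · refine (pow_eq_one_iff_of_nonneg (norm_nonneg _) two_ne_zero).mp ?_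
    rw [EuclideanSpace.real_norm_sq_eq, Fin.sum_univ_three]
    simp only [gp, PiLp.toLp_apply, Matrix.cons_val_zero, Matrix.cons_val_one, Matrix.cons_val]
    rw [sq_sqrt (by linarith)]
    ring
  · simp only [gp, PiLp.toLp_apply, Matrix.cons_val]
    exact le_sqrt_of_sq_le (by linarith)

lemma gp_sep {s : ℝ} (hs : 0 < s) {ab cd : ℕ × ℕ} (h : ab ≠ cd) : s ≤ ‖gp s ab - gp s cd‖ := by
  have k : ∀ a b : ℕ, a ≠ b → s ≤ |a * s - b * s| := by
    intro a b hab
    rw [← sub_mul, abs_mul, abs_of_pos hs]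
    refine le_mul_of_one_le_left hs.le ?_
    have : (1 : ℤ) ≤ |(a : ℤ) - b| := Int.one_le_abs (sub_ne_zero.mpr (by exact_mod_cast hab))
    exact_mod_cast this
  by_cases h1 : ab.1 = cd.1
  · have h2 : ab.2 ≠ cd.2 := fun h2 => h (Prod.ext h1 h2)
    refine (k _ _ h2).trans ?_
    simpa [gp] using coord_le (gp s ab - gp s cd) 1
  · refine (k _ _ h1).trans ?_
    simpa [gp] using coord_le (gp s ab - gp s cd) 0

theorem circ_bound (n : ℕ) {l l' p : ℝ} (hl : 0 < l) (hl1 : l < 1) (hl' : 0 < l') (hl2 : l' ≤ 1 / 2)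
    (h : l ^ 2 ≤ l' ^ 2 * (1 - l ^ 2)) (hp : l' ^ 2 / (4 * π) * (1012 * √3 / 675) ≤ p)
    (hp1 : p < 1) {M : ℕ} (hM0 : 0 < M) (hM : M * (3 * l') ≤ 1 / 2) :
    PP n (Circ n l)ᶜ ≤ ENNReal.ofReal (1 / ((M : ℝ) ^ 2 * (1 - p) ^ n)) := by
  classical
  have hs : 0 < 3 * l' := by positivity
  have ex : ∀ ab : ℕ × ℕ, ∃ R : E3 ≃ₗᵢ[ℝ] E3,
      ab ∈ Finset.range M ×ˢ Finset.range M → R (gp (3 * l') ab) = pole := by
    intro ab
    by_cases hab : ab ∈ Finset.range M ×ˢ Finset.range M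
    · obtain ⟨R, hR⟩ := exists_rot ⟨gp (3 * l') ab, by simpa using (gp_facts hs hM hab).1⟩
      exact ⟨R, fun _ => hR⟩
    · exact ⟨LinearIsometryEquiv.refl ℝ E3, fun h => absurd h hab⟩
  choose R hR using ex
  let W : ℕ × ℕ → Set S2 := fun ab => rot (R ab) ⁻¹' W0 l'
  have mW : ∀ ab, MeasurableSet (W ab) := fun ab => (rot_cont _).measurable (W0_meas l')
  have nearW : ∀ ab ∈ Finset.range M ×ˢ Finset.range M, ∀ y ∈ W ab,
      ‖y.1 - gp (3 * l') ab‖ ≤ l' ∨ ‖y.1 + gp (3 * l') ab‖ ≤ l' := by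
    intro ab hab y hy
    have := W0_near hl' hy
    simpa only [rot, ← hR ab hab, ← map_sub, ← map_add, LinearIsometryEquiv.norm_map] using this
  have disj : ∀ ab ∈ Finset.range M ×ˢ Finset.range M, ∀ cd ∈ Finset.range M ×ˢ Finset.range M,
      ab ≠ cd → Disjoint (W ab) (W cd) := by
    intro ab hab cd hcd hne
    rw [disjoint_left]
    intro y h1 h2
    have s1 := gp_sep hs hne
    have s2 : 4 / 3 ≤ ‖gp (3 * l') ab + gp (3 * l') cd‖ := by
      have := coord_le (gp (3 * l') ab + gp (3 * l') cd) 2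
      rw [PiLp.add_apply] at this
      linarith [(gp_facts hs hM hab).2, (gp_facts hs hM hcd).2,
        le_abs_self (gp (3 * l') ab 2 + gp (3 * l') cd 2)]
    rcases nearW ab hab y h1 with a | a <;> rcases nearW cd hcd y h2 with b | b
    · have := norm_sub_le (y.1 - gp (3 * l') cd) (y.1 - gp (3 * l') ab)
      rw [sub_sub_sub_cancel_left] at this
      linarith
    · have := norm_sub_le (y.1 + gp (3 * l') cd) (y.1 - gp (3 * l') ab)
      rw [add_sub_sub_cancel, add_comm (gp (3 * l') cd)] at this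
      linarith
    · have := norm_sub_le (y.1 + gp (3 * l') ab) (y.1 - gp (3 * l') cd)
      rw [add_sub_sub_cancel] at this
      linarith
    · have := norm_sub_le (y.1 + gp (3 * l') ab) (y.1 + gp (3 * l') cd)
      rw [add_sub_add_left_eq_sub] at this
      linarith
  set w := (unif E3).real (W0 l') with hw
  have w0 : 0 ≤ w := measureReal_nonneg
  have wp : w ≤ p := by
    refine le_trans ?_ hp
    exact ENNReal.toReal_le_of_le_ofReal (by positivity) (W0_vol hl')
  have real_avoid : ∀ U : Set S2, MeasurableSet U →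
      (PP n).real (avoid n U) = (1 - (unif E3).real U) ^ n := by
    intro U hU
    rw [measureReal_def, PP_avoid n hU, ENNReal.toReal_pow,
      ENNReal.toReal_sub_of_le prob_le_one ENNReal.one_ne_top]
    rfl
  have Ww : ∀ ab, (unif E3).real (W ab) = w := fun ab => by
    rw [hw, measureReal_def, measureReal_def, unif_rot _ (W0_meas l')]
  have S := second_moment (PP n) (Finset.range M ×ˢ Finset.range M) (fun ab => avoid n (W ab))
    (fun ab => avoid_meas n (mW ab)) (u := (1 - w) ^ n)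
    (fun ab _ => by rw [real_avoid _ (mW ab), Ww])
    (fun ab hab cd hcd hne => by
      have e : avoid n (W ab) ∩ avoid n (W cd) = avoid n (W ab ∪ W cd) := by
        ext X
        simp [avoid, forall_and]
      have le1 : (unif E3).real (W ab ∪ W cd) ≤ 1 := measureReal_le_one
      rw [e, real_avoid _ ((mW ab).union (mW cd))]
      rw [measureReal_union (disj ab hab cd hcd hne) (mW cd), Ww, Ww] at le1 ⊢
      rw [← pow_mul, mul_comm n 2, pow_mul]
      exact pow_le_pow_left₀ (by linarith) (by nlinarith [sq_nonneg w]) n)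
  simp only [Finset.card_product, Finset.card_range, Nat.cast_mul] at S
  have sub : (Circ n l)ᶜ ⊆
      {X | ∀ ab ∈ Finset.range M ×ˢ Finset.range M, X ∉ avoid n (W ab)} :=
    fun X hX ab _ hab => hX (circ_of_avoid hl hl1 hl' h (R ab) hab)
  refine (measure_mono sub).trans ?_
  rw [← ENNReal.ofReal_toReal (measure_ne_top (PP n) _)]
  refine ENNReal.ofReal_le_ofReal ?_
  have M0 : (0 : ℝ) < M := by exact_mod_cast hM0
  have u0 : 0 < (1 - p) ^ n := pow_pos (by linarith) n
  have u1 : (1 - p) ^ n ≤ (1 - w) ^ n := pow_le_pow_left₀ (by linarith) (by linarith) n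
  have m0 : 0 < (M : ℝ) * M * (1 - w) ^ n := mul_pos (mul_pos M0 M0) (u0.trans_le u1)
  rw [sq, ← mul_assoc] at S
  have S2 := (mul_le_iff_le_one_left m0).mp S
  rw [le_div_iff₀ (by positivity)]
  refine le_trans ?_ S2
  refine mul_le_mul_of_nonneg_left ?_ ENNReal.toReal_nonneg
  rw [sq]
  exact mul_le_mul_of_nonneg_left u1 (by positivity)

end Pool.Agent.Lib.MP_f73bef_pr
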