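import Pool.Agent.Lib.MP_f73bef_pr.Union

namespace Pool.Agent.Lib.MP_f73bef_pr

open MeasureTheory Set Real

noncomputable def vec (x y : ℝ) : ℝ × ℝ :=
  if x ≤ -1 / 2 then (if 0 ≤ y then (-9, 4) else (-9, -4))
  else if 1 ≤ x + y then (if x ≤ -1 / 4 then (-2, 10) else (6, 8))
  else if 1 ≤ x - y then (if x ≤ -1 / 4 then (-2, -10) else (6, -8))
  else (10, 0)

lemma c_up {x y x' y' : ℝ} (h : (x + x') ^ 2 + (y + y') ^ 2 / 3 < 1) (a : 1 ≤ x + y)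
    (b : 1 ≤ x' + y') : False := by
  nlinarith [sq_nonneg (3 * (x + x') - (y + y'))]

lemma c_low {x y x' y' : ℝ} (h : (x + x') ^ 2 + (y + y') ^ 2 / 3 < 1) (a : 1 ≤ x - y)
    (b : 1 ≤ x' - y') : False := by
  nlinarith [sq_nonneg (3 * (x + x') + (y + y'))]

lemma c_left {x y x' y' : ℝ} (h : (x + x') ^ 2 + (y + y') ^ 2 / 3 < 1) (a : x ≤ -1 / 2)
    (b : x' ≤ -1 / 2) : False := by
  nlinarith [sq_nonneg (y + y')]

lemma c_KK {x y x' y' : ℝ} (h : (x + x') ^ 2 + (y + y') ^ 2 / 3 < 1) (a : 29 / 30 ≤ x)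
    (b : 29 / 30 ≤ x') : False := by
  nlinarith [sq_nonneg (y + y')]

lemma c_K1 {x y x' y' : ℝ} (h : (x + x') ^ 2 + (y + y') ^ 2 / 3 < 1) (a : 29 / 30 ≤ x)
    (a2 : ¬ 1 ≤ x - y) (b : ¬ x' ≤ -1 / 4) (b2 : 1 ≤ x' + y') : False := by
  push Not at a2 b
  have h1 : 43 / 60 ≤ x + x' := by linarith
  have h2 : 29 / 15 ≤ (x + x') + (y + y') := by linarith
  nlinarith [sq_nonneg ((x + x') - 43 / 60), sq_nonneg ((y + y') - 73 / 60)]

lemma c_K6 {x y x' y' : ℝ} (h : (x + x') ^ 2 + (y + y') ^ 2 / 3 < 1) (a : 29 / 30 ≤ x)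
    (a2 : ¬ 1 ≤ x + y) (b : ¬ x' ≤ -1 / 4) (b2 : 1 ≤ x' - y') : False :=
  c_K1 (x := x) (y := -y) (x' := x') (y' := -y') (by linarith) a (by rwa [sub_neg_eq_add]) b
    (by linarith)

lemma c_23 {x y x' y' : ℝ} (h : (x + x') ^ 2 + (y + y') ^ 2 / 3 < 1) (a : x ≤ -1 / 4)
    (a2 : 1 ≤ x + y) (b : x' ≤ -1 / 2) (b2 : 0 ≤ y') : False := by
  nlinarith [sq_nonneg ((x + x') + 3 / 4), sq_nonneg ((y + y') - 5 / 4)]

lemma c_45 {x y x' y' : ℝ} (h : (x + x') ^ 2 + (y + y') ^ 2 / 3 < 1) (a : x ≤ -1 / 4)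
    (a2 : 1 ≤ x - y) (b : x' ≤ -1 / 2) (b2 : ¬ 0 ≤ y') : False :=
  c_23 (x := x) (y := -y) (x' := x') (y' := -y') (by linarith) a (by linarith) b (by linarith)

lemma vec_neg {x y x' y' : ℝ} (h : (x + x') ^ 2 + (y + y') ^ 2 / 3 < 1)
    (n1 : ¬ x ≤ -1 / 2 → ¬ 1 ≤ x + y → ¬ 1 ≤ x - y → 29 / 30 ≤ x)
    (n2 : ¬ x' ≤ -1 / 2 → ¬ 1 ≤ x' + y' → ¬ 1 ≤ x' - y' → 29 / 30 ≤ x') :
    (vec x y).1 * (vec x' y').1 + (vec x y).2 * (vec x' y').2 < 0 := by
  have h' : (x' + x) ^ 2 + (y' + y) ^ 2 / 3 < 1 := by rwa [add_comm x', add_comm y']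
  unfold vec
  split_ifs
  all_goals first
    | (norm_num; done)
    | exact (c_left h ‹_› ‹_›).elim
    | exact (c_up h ‹_› ‹_›).elim
    | exact (c_low h ‹_› ‹_›).elim
    | exact (c_23 h ‹_› ‹_› ‹_› ‹_›).elim
    | exact (c_23 h' ‹_› ‹_› ‹_› ‹_›).elim
    | exact (c_45 h ‹_› ‹_› ‹_› ‹_›).elim
    | exact (c_45 h' ‹_› ‹_› ‹_› ‹_›).elim
    | exact (c_KK h (n1 ‹_› ‹_› ‹_›) (n2 ‹_› ‹_› ‹_›)).elim
    | exact (c_K1 h (n1 ‹_› ‹_› ‹_›) ‹_› ‹_› ‹_›).elim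
    | exact (c_K1 h' (n2 ‹_› ‹_› ‹_›) ‹_› ‹_› ‹_›).elim
    | exact (c_K6 h (n1 ‹_› ‹_› ‹_›) ‹_› ‹_› ‹_›).elim
    | exact (c_K6 h' (n2 ‹_› ‹_› ‹_›) ‹_› ‹_› ‹_›).elim

def tri : Set (ℝ × ℝ) :=
  {p | -1 / 2 < p.1 ∧ p.1 < 29 / 30 ∧ p.1 + √3 * p.2 < 1 ∧ p.1 - √3 * p.2 < 1}

lemma tri_eq : tri = regionBetween (fun x => -((1 - x) / √3)) (fun x => (1 - x) / √3)
    (Ioo (-1 / 2) (29 / 30)) := by
  have s0 : 0 < √3 := by positivity
  ext p
  simp only [tri, regionBetween, mem_ofPred_eq, mem_Ioo, lt_div_iff₀ s0, neg_lt (a := (1 - p.1) / √3)]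
  constructor
  · rintro ⟨a, b, c, d⟩
    exact ⟨⟨a, b⟩, by linarith, by linarith⟩
  · rintro ⟨⟨a, b⟩, c, d⟩
    exact ⟨a, b, by linarith, by linarith⟩

lemma tri_meas : MeasurableSet tri := by
  rw [tri_eq]
  exact measurableSet_regionBetween (by fun_prop) (by fun_prop) measurableSet_Ioo

lemma tri_vol : volume tri = ENNReal.ofReal (506 * √3 / 675) := by
  have s0 : 0 < √3 := by positivity
  have s2 : √3 ^ 2 = 3 := sq_sqrt (by norm_num)
  rw [tri_eq, Measure.volume_eq_prod, volume_regionBetween_eq_integral]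
  · congr 1
    rw [← integral_Ioc_eq_integral_Ioo, ← intervalIntegral.integral_of_le (by norm_num)]
    have hd : ∀ x ∈ uIcc (-1 / 2 : ℝ) (29 / 30), HasDerivAt (fun x : ℝ => (2 * x - x ^ 2) / √3)
        (((fun x => (1 - x) / √3) - fun x => -((1 - x) / √3) : ℝ → ℝ) x) x := by
      intro x _
      have := (((hasDerivAt_id x).const_mul 2).sub (hasDerivAt_pow 2 x)).div_const √3
      refine this.congr_deriv ?_
      simp only [Pi.sub_apply]
      push_cast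
      ring
    rw [intervalIntegral.integral_eq_sub_of_hasDerivAt hd
      ((by fun_prop : Continuous ((fun x => (1 - x) / √3) - fun x => -((1 - x) / √3) :
        ℝ → ℝ)).intervalIntegrable _ _)]
    field_simp
    rw [s2]
    norm_num
  · exact ((by fun_prop : Continuous fun x : ℝ => -((1 - x) / √3)).integrableOn_Icc).mono_set
      Ioo_subset_Icc_self
  · exact ((by fun_prop : Continuous fun x : ℝ => (1 - x) / √3).integrableOn_Icc).mono_set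
      Ioo_subset_Icc_self
  · exact measurableSet_Ioo
  · intro x hx
    have : 0 ≤ (1 - x) / √3 := div_nonneg (by linarith [hx.2]) s0.le
    linarith

lemma tri_nsq {p : ℝ × ℝ} (h : p ∈ tri) : nsq p < 1 := by
  obtain ⟨a, _, c, d⟩ := h
  have s2 : √3 ^ 2 = 3 := sq_sqrt (by norm_num)
  have e : (√3 * p.2) ^ 2 = 3 * p.2 ^ 2 := by rw [mul_pow, s2]
  have k : (√3 * p.2) ^ 2 < (1 - p.1) ^ 2 := sq_lt_sq' (by linarith) (by linarith)
  unfold nsq
  nlinarith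

lemma tri_star {p : ℝ × ℝ} (h : p ∈ tri) {s : ℝ} (h0 : 0 < s) (h1 : s ≤ 1) :
    (s * p.1, s * p.2) ∈ tri := by
  obtain ⟨a, b, c, d⟩ := h
  refine ⟨?_, ?_, ?_, ?_⟩ <;> simp only <;> nlinarith

def W0 (l : ℝ) : Set S2 :=
  gam l tri ∪ rot (LinearIsometryEquiv.neg ℝ) ⁻¹' gam l (Neg.neg ⁻¹' tri)

lemma W0_meas (l : ℝ) : MeasurableSet (W0 l) :=
  (gam_meas l tri_meas).union ((rot_cont _).measurable (gam_meas l (measurable_neg tri_meas)))

lemma W0_vol {l : ℝ} (hl : 0 < l) :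
    unif E3 (W0 l) ≤ ENNReal.ofReal (l ^ 2 / (4 * π) * (1012 * √3 / 675)) := by
  refine (measure_union_le _ _).trans ?_
  rw [unif_rot _ (gam_meas l (measurable_neg tri_meas))]
  refine (add_le_add (gam_upper hl tri_meas) (gam_upper hl (measurable_neg tri_meas))).trans ?_
  rw [Measure.measure_preimage_neg, tri_vol, ← ENNReal.ofReal_mul (by positivity),
    ← ENNReal.ofReal_add (by positivity) (by positivity)]
  exact ENNReal.ofReal_le_ofReal (le_of_eq (by ring))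

lemma near_pole {l : ℝ} (hl : 0 < l) (y : S2) (h1 : 0 < y.1 2) (h2 : nsq (gn l y.1) < 1) :
    ‖y.1 - pole‖ ≤ l := by
  have := nu_lip l (gn l y.1) 0
  rw [nu_gn hl y h1, nu_zero, sub_zero] at this
  refine (pow_le_pow_iff_left₀ (norm_nonneg _) hl.le two_ne_zero).mp (this.trans ?_)
  exact mul_le_of_le_one_right (sq_nonneg _) h2.le

lemma W0_near {l : ℝ} (hl : 0 < l) {y : S2} (hy : y ∈ W0 l) :
    ‖y.1 - pole‖ ≤ l ∨ ‖y.1 + pole‖ ≤ l := by
  rcases hy with hy | hy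
  · exact Or.inl (near_pole hl y hy.1 (tri_nsq hy.2))
  · have e : rot (LinearIsometryEquiv.neg ℝ) y = -y := rfl
    rw [mem_preimage, e] at hy
    have := near_pole hl _ hy.1 (by simpa [nsq] using tri_nsq hy.2)
    rw [coe_neg_sphere, ← norm_neg, neg_sub, sub_neg_eq_add, add_comm pole] at this
    exact Or.inr this

lemma mem_W0 {l l' : ℝ} (hl : 0 < l) (hl1 : l < 1) (hl' : 0 < l') (h : l ^ 2 ≤ l' ^ 2 * (1 - l ^ 2))
    {y : S2} (hy : (y.1 0 / l, y.1 1 / l) ∈ tri) : y ∈ W0 l' := by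
  have a1 := tri_nsq hy
  simp only [nsq, div_pow] at a1
  rw [← add_div, div_lt_one (by positivity)] at a1
  have a2 := sph_sq y
  have a3 : 1 - l ^ 2 < y.1 2 ^ 2 := by linarith
  have a4 : y.1 2 ≠ 0 := by
    intro h0
    rw [h0] at a3
    nlinarith
  have a5 : 0 < |y.1 2| := abs_pos.mpr a4
  have a6 : l / (l' * |y.1 2|) ≤ 1 := by
    rw [div_le_one (by positivity)]
    refine (pow_le_pow_iff_left₀ hl.le (by positivity) two_ne_zero).mp ?_
    rw [mul_pow, sq_abs]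
    exact h.trans (mul_le_mul_of_nonneg_left a3.le (sq_nonneg _))
  have a7 := tri_star hy (s := l / (l' * |y.1 2|)) (by positivity) a6
  rcases lt_or_gt_of_ne a4 with h0 | h0
  · right
    have e : rot (LinearIsometryEquiv.neg ℝ) y = -y := rfl
    rw [mem_preimage, e]
    refine ⟨by simpa using h0, ?_⟩
    rw [abs_of_neg h0] at a7
    rw [mem_preimage]
    convert a7 using 1
    simp only [gn, coe_neg_sphere, PiLp.neg_apply, Prod.neg_mk]
    congr 1 <;> field_simp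
  · left
    refine ⟨h0, ?_⟩
    rw [abs_of_pos h0] at a7
    convert a7 using 1
    simp only [gn]
    congr 1 <;> field_simp

/-- The points admit plane vectors with negative inner product on close-to-antipodal pairs. -/
def Circ (n : ℕ) (l : ℝ) : Set (Fin n → S2) :=
  {X | ∃ φ : Fin n → ℂ, ∀ i j, ‖(X i).1 + (X j).1‖ < l → (φ i * (starRingEnd ℂ) (φ j)).re < 0}

lemma circ_of_avoid {n : ℕ} {l l' : ℝ} (hl : 0 < l) (hl1 : l < 1) (hl' : 0 < l')
    (h : l ^ 2 ≤ l' ^ 2 * (1 - l ^ 2)) (R : E3 ≃ₗᵢ[ℝ] E3) :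
    avoid n (rot R ⁻¹' W0 l') ⊆ Circ n l := by
  intro X hX
  let x : Fin n → ℝ := fun i => (rot R (X i)).1 0 / l
  let y : Fin n → ℝ := fun i => √3 * ((rot R (X i)).1 1 / l)
  have hn : ∀ i, ¬ x i ≤ -1 / 2 → ¬ 1 ≤ x i + y i → ¬ 1 ≤ x i - y i → 29 / 30 ≤ x i := by
    intro i a b c
    by_contra d
    exact hX i (mem_W0 hl hl1 hl' h ⟨not_le.mp a, not_le.mp d, not_le.mp b, not_le.mp c⟩)
  refine ⟨fun i => ⟨(vec (x i) (y i)).1, (vec (x i) (y i)).2⟩, fun i j hij => ?_⟩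
  have s2 : √3 ^ 2 = 3 := sq_sqrt (by norm_num)
  have k : (x i + x j) ^ 2 + (y i + y j) ^ 2 / 3 < 1 := by
    have e := EuclideanSpace.real_norm_sq_eq ((rot R (X i)).1 + (rot R (X j)).1)
    have e2 : ‖(rot R (X i)).1 + (rot R (X j)).1‖ = ‖(X i).1 + (X j).1‖ := by
      simp only [rot, ← map_add, LinearIsometryEquiv.norm_map]
    rw [e2, Fin.sum_univ_three] at e
    simp only [PiLp.add_apply] at e
    have := pow_lt_pow_left₀ hij (norm_nonneg _) two_ne_zero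
    simp only [x, y, ← mul_add, ← add_div, mul_pow, s2, div_pow]
    rw [mul_div_cancel_left₀ _ three_ne_zero, ← add_div, div_lt_one (by positivity)]
    nlinarith [sq_nonneg ((rot R (X i)).1 2 + (rot R (X j)).1 2)]
  have := vec_neg k (hn i) (hn j)
  simpa using this

end Pool.Agent.Lib.MP_f73bef_pr
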