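import Pool.Agent.Lib.MP_f73bef_pr.Main

namespace Pool.Agent.Lib.MP_f73bef_pr

open MeasureTheory Set Real Filter Topology Pointwise

variable {E : Type} [NormedAddCommGroup E] [InnerProductSpace ℝ E]

noncomputable def sphMap {F : Type} [NormedAddCommGroup F] [InnerProductSpace ℝ F]
    (L : E ≃ₗᵢ[ℝ] F) (y : Metric.sphere (0 : E) 1) : Metric.sphere (0 : F) 1 := ⟨L y.1, by simp⟩

lemma sphMap_cont {F : Type} [NormedAddCommGroup F] [InnerProductSpace ℝ F]
    (L : E ≃ₗᵢ[ℝ] F) : Continuous (sphMap L) :=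
  (L.continuous.comp continuous_subtype_val).subtype_mk _

noncomputable def sphHomeo (L : E ≃ₗᵢ[ℝ] E3) : (Metric.sphere (0 : E) 1 : Type) ≃ₜ S2 where
  toFun := sphMap L
  invFun := sphMap L.symm
  left_inv y := Subtype.ext (L.symm_apply_apply y.1)
  right_inv y := Subtype.ext (L.apply_symm_apply y.1)
  continuous_toFun := sphMap_cont L
  continuous_invFun := sphMap_cont L.symm

lemma borsuk_map (L : E ≃ₗᵢ[ℝ] E3) {n : ℕ} (X : Fin n → Metric.sphere (0 : E) 1) (α : ℝ) :
    borsuk (fun i => sphHomeo L (X i)) α = borsuk X α := by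
  unfold borsuk
  congr 1
  funext i j
  have : InnerProductGeometry.angle (sphHomeo L (X i)).1 (sphHomeo L (X j)).1
      = InnerProductGeometry.angle (X i).1 (X j).1 :=
    L.toLinearIsometry.angle_map _ _
  rw [this]

lemma propQ_map (L : E ≃ₗᵢ[ℝ] E3) {n : ℕ} :
    PropQ (Metric.sphere (0 : E) 1) (n := n) = PropQ S2 := by
  funext G
  apply propext
  constructor
  · rintro ⟨H, h, ⟨e⟩⟩
    exact ⟨H, h, ⟨e.trans (sphHomeo L).toHomotopyEquiv⟩⟩
  · rintro ⟨H, h, ⟨e⟩⟩
    exact ⟨H, h, ⟨e.trans (sphHomeo L).symm.toHomotopyEquiv⟩⟩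

variable [FiniteDimensional ℝ E] [MeasurableSpace E] [BorelSpace E]

lemma toSphere_map (L : E ≃ₗᵢ[ℝ] E3) {s : Set S2} (hs : MeasurableSet s) :
    (volume : Measure E).toSphere (sphHomeo L ⁻¹' s) = (volume : Measure E3).toSphere s := by
  rw [Measure.toSphere_apply' _ hs,
    Measure.toSphere_apply' _ ((sphHomeo L).continuous.measurable hs),
    L.toLinearEquiv.finrank_eq]
  congr 1
  rw [← L.measurePreserving.measure_preimage_emb L.toHomeomorph.measurableEmbedding
    (Ioo (0 : ℝ) 1 • ((↑) '' s : Set E3))]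
  congr 1
  ext x
  constructor
  · rintro ⟨r, hr, _, ⟨y, hy, rfl⟩, rfl⟩
    exact ⟨r, hr, _, ⟨_, hy, rfl⟩, by simp [sphHomeo, sphMap]⟩
  · rintro ⟨r, hr, _, ⟨y, hy, rfl⟩, h⟩
    refine ⟨r, hr, _, ⟨(sphHomeo L).symm y, ?_, rfl⟩, ?_⟩
    · rw [mem_preimage, Homeomorph.apply_symm_apply]; exact hy
    · apply L.injective
      simpa [sphHomeo, sphMap] using h

lemma unif_map (L : E ≃ₗᵢ[ℝ] E3) : MeasurePreserving (sphHomeo L) (unif E) (unif E3) := by
  refine ⟨(sphHomeo L).continuous.measurable, Measure.ext fun s hs => ?_⟩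
  rw [Measure.map_apply (sphHomeo L).continuous.measurable hs]
  simp only [unif, Measure.smul_apply]
  rw [toSphere_map L hs, ← toSphere_map L MeasurableSet.univ, preimage_univ]

theorem main' (hE : Module.finrank ℝ E = 3) :
    Tendsto (fun n : ℕ => Measure.pi (fun _ : Fin n => unif E)
      {X | ¬ hitAngle (PropP 3) X < hitAngle (PropQ (Metric.sphere (0 : E) 1)) X})
      atTop (𝓝 0) := by
  let L : E ≃ₗᵢ[ℝ] E3 := ((stdOrthonormalBasis ℝ E).reindex (finCongr hE)).repr
  have : IsProbabilityMeasure (unif E) := ⟨by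
    rw [← preimage_univ (f := sphHomeo L),
      (unif_map L).measure_preimage MeasurableSet.univ.nullMeasurableSet, measure_univ]⟩
  refine tendsto_of_tendsto_of_tendsto_of_le_of_le tendsto_const_nhds main
    (fun _ => zero_le) fun n => ?_
  have mp := measurePreserving_pi (fun _ : Fin n => unif E) (fun _ => unif E3)
    (fun _ => unif_map L)
  refine le_trans (measure_mono ?_) (mp.measure_preimage_le _)
  intro X hX
  simpa only [mem_preimage, mem_ofPred_eq, hitAngle, borsuk_map, propQ_map L] using hX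

end Pool.Agent.Lib.MP_f73bef_pr
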