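import Pool.Agent.Lib.MP_f73bef_pr.Hole

namespace Pool.Agent.Lib.MP_f73bef_pr

open MeasureTheory Set Real

noncomputable def PP (n : ℕ) : Measure (Fin n → S2) := Measure.pi fun _ => unif E3

instance (n : ℕ) : IsProbabilityMeasure (PP n) := by unfold PP; infer_instance

def avoid (n : ℕ) (U : Set S2) : Set (Fin n → S2) := {X | ∀ j, X j ∉ U}

lemma avoid_eq (n : ℕ) (U : Set S2) : avoid n U = Set.pi univ fun _ => Uᶜ := by
  ext X; simp [avoid]

lemma avoid_meas (n : ℕ) {U : Set S2} (hU : MeasurableSet U) : MeasurableSet (avoid n U) := by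
  rw [avoid_eq]; exact MeasurableSet.univ_pi fun _ => hU.compl

lemma PP_avoid (n : ℕ) {U : Set S2} (hU : MeasurableSet U) :
    PP n (avoid n U) = (1 - unif E3 U) ^ n := by
  rw [avoid_eq, PP, Measure.pi_pi, prob_compl_eq_one_sub hU]
  simp

noncomputable def kap (η : ℝ) (y : E3) : Fin 3 → ℤ := fun j => ⌊y j / η⌋

lemma kap_meas (η : ℝ) : Measurable fun y : S2 => kap η y.1 :=
  measurable_pi_lambda _ fun j => Int.measurable_floor.comp (by fun_prop)

lemma kap_near {η : ℝ} (hη : 0 < η) {y z : E3} (h : kap η y = kap η z) : ‖y - z‖ ≤ 2 * η := by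
  have k : ∀ j, (y j - z j) ^ 2 ≤ η ^ 2 := by
    intro j
    have := Int.abs_sub_lt_one_of_floor_eq_floor (congr_fun h j)
    rw [← sub_div, abs_div, abs_of_pos hη, div_lt_one hη] at this
    exact sq_le_sq' (abs_lt.mp this).1.le (abs_lt.mp this).2.le
  refine (pow_le_pow_iff_left₀ (norm_nonneg _) (by positivity) two_ne_zero).mp ?_
  rw [EuclideanSpace.real_norm_sq_eq, Fin.sum_univ_three]
  simp only [PiLp.sub_apply]
  nlinarith [k 0, k 1, k 2, sq_nonneg η]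

noncomputable def ctr (a b : ℝ) : Fin 3 → ℝ := ![cos a * cos b, sin a * cos b, sin b]

lemma exists_ctr (q : S2) : ∃ a b, |a| ≤ 4 ∧ |b| ≤ 4 ∧ ∀ j, q.1 j = ctr a b j := by
  have h := sph_sq q
  have h1 : -1 ≤ q.1 2 := by nlinarith [sq_nonneg (q.1 0), sq_nonneg (q.1 1)]
  have h2 : q.1 2 ≤ 1 := by nlinarith [sq_nonneg (q.1 0), sq_nonneg (q.1 1)]
  have e : ‖(⟨q.1 0, q.1 1⟩ : ℂ)‖ = cos (arcsin (q.1 2)) := by
    rw [cos_arcsin, Complex.norm_eq_sqrt_sq_add_sq]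
    congr 1
    simp only
    linarith
  refine ⟨Complex.arg ⟨q.1 0, q.1 1⟩, arcsin (q.1 2), ?_, ?_, fun j => ?_⟩
  · exact (Complex.abs_arg_le_pi _).trans pi_le_four
  · exact abs_le.mpr ⟨by linarith [neg_pi_div_two_le_arcsin (q.1 2), pi_le_four],
      by linarith [arcsin_le_pi_div_two (q.1 2), pi_le_four]⟩
  · fin_cases j
    · simp only [ctr, Fin.zero_eta, Matrix.cons_val_zero]
      rw [← e, mul_comm, Complex.norm_mul_cos_arg]
    · simp only [ctr, Fin.mk_one, Matrix.cons_val_one, Matrix.cons_val_zero]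
      rw [← e, mul_comm, Complex.norm_mul_sin_arg]
    · simp [ctr, sin_arcsin h1 h2]

lemma ctr_lip {a b a' b' l : ℝ} (ha : |a - a'| ≤ l) (hb : |b - b'| ≤ l) (j : Fin 3) :
    |ctr a b j - ctr a' b' j| ≤ 2 * l := by
  have l0 : 0 ≤ l := (abs_nonneg _).trans ha
  have c1 := (abs_cos_sub_cos_le a a').trans ha
  have c2 := (abs_cos_sub_cos_le b b').trans hb
  have s1 := (abs_sin_sub_sin_le a a').trans ha
  have s2 := (abs_sin_sub_sin_le b b').trans hb
  have gen : ∀ x x' : ℝ, |x - x'| ≤ l → |x'| ≤ 1 → |x * cos b - x' * cos b'| ≤ 2 * l := by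
    intro x x' h1 h2
    have : x * cos b - x' * cos b' = (x - x') * cos b + x' * (cos b - cos b') := by ring
    rw [this]
    refine (abs_add_le _ _).trans ?_
    rw [abs_mul, abs_mul]
    have := mul_le_mul h1 (abs_cos_le_one b) (abs_nonneg _) l0
    have := mul_le_mul h2 c2 (abs_nonneg _) zero_le_one
    linarith
  fin_cases j
  · exact gen _ _ c1 (abs_cos_le_one _)
  · exact gen _ _ s1 (abs_sin_le_one _)
  · exact s2.trans (by linarith)

noncomputable def box (η : ℝ) (m : ℕ) (c : Fin 3 → ℝ) : Finset (Fin 3 → ℤ) :=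
  Fintype.piFinset fun j => Finset.Icc (⌊c j / η⌋ - m) (⌊c j / η⌋ + m)

lemma box_card (η : ℝ) (m : ℕ) (c : Fin 3 → ℝ) : (box η m c).card = (2 * m + 1) ^ 3 := by
  rw [box, Fintype.card_piFinset]
  have : ∀ j, (Finset.Icc (⌊c j / η⌋ - m) (⌊c j / η⌋ + m)).card = 2 * m + 1 := by
    intro j
    rw [Int.card_Icc]
    omega
  simp [this]

lemma mem_box {η : ℝ} (hη : 0 < η) {m : ℕ} {c : Fin 3 → ℝ} {y : E3}
    (h : ∀ j, |y j - c j| ≤ m * η) : kap η y ∈ box η m c := by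
  refine Fintype.mem_piFinset.mpr fun j => Finset.mem_Icc.mpr ?_
  have h1 := abs_le.mp (h j)
  have a1 : c j / η - m ≤ y j / η := by
    rw [le_div_iff₀ hη, sub_mul, div_mul_cancel₀ _ hη.ne']; linarith [h1.1]
  have a2 : y j / η ≤ c j / η + m := by
    rw [div_le_iff₀ hη, add_mul, div_mul_cancel₀ _ hη.ne']; linarith [h1.2]
  have b1 := Int.floor_le_floor a1
  have b2 := Int.floor_le_floor a2
  rw [Int.floor_sub_natCast] at b1
  rw [Int.floor_add_natCast] at b2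
  exact ⟨b1, b2⟩

lemma floor_mem {x l : ℝ} (hl : 0 < l) (hx : |x| ≤ 4) :
    ⌊x / l⌋ ∈ Finset.Icc (-(⌈4 / l⌉₊ : ℤ)) ⌈4 / l⌉₊ ∧ |x - ⌊x / l⌋ * l| ≤ l := by
  have h := abs_le.mp hx
  have c := Nat.le_ceil (4 / l)
  constructor
  · rw [Finset.mem_Icc]
    constructor
    · rw [Int.le_floor]
      push_cast
      have : -(4 / l) ≤ x / l := by rw [← neg_div]; exact div_le_div_of_nonneg_right h.1 hl.le
      linarith
    · have : (⌊x / l⌋ : ℝ) ≤ (⌈4 / l⌉₊ : ℝ) :=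
        (Int.floor_le _).trans ((div_le_div_of_nonneg_right h.2 hl.le).trans c)
      exact_mod_cast this
  · have a1 := Int.floor_le (x / l)
    have a2 := Int.lt_floor_add_one (x / l)
    rw [le_div_iff₀ hl] at a1
    rw [div_lt_iff₀ hl] at a2
    rw [abs_le]
    constructor <;> linarith

def Col3 (n : ℕ) (l0 : ℝ) : Set (Fin n → S2) :=
  {X | ∃ c : Fin n → Fin 3, ∀ i j, c i = c j → l0 ≤ ‖(X i).1 + (X j).1‖}

lemma coord_le (v : E3) (j : Fin 3) : |v j| ≤ ‖v‖ := by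
  simpa using PiLp.norm_apply_le v j

lemma col3_cover {n : ℕ} (hn : 0 < n) {η h : ℝ} (hη : 0 < η) {k : ℕ} (hk : 0 < k)
    (hh : 0 ≤ h) (hlh : h ^ 2 * (1 + (k * η) ^ 2) ≤ 1)
    (X : Fin n → S2) (hX : X ∈ Col3 n ((k + 4) * η)) :
    ∃ a ∈ Finset.Icc (-(⌈4 / (k * η)⌉₊ : ℤ)) ⌈4 / (k * η)⌉₊,
      ∃ b ∈ Finset.Icc (-(⌈4 / (k * η)⌉₊ : ℤ)) ⌈4 / (k * η)⌉₊,
      ∃ S ⊆ box η (3 * k) (ctr (a * (k * η)) (b * (k * η))) ∪
        box η (3 * k) (-ctr (a * (k * η)) (b * (k * η))),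
      ENNReal.ofReal ((k * η) ^ 2 * h ^ 3 / (4 * π) * (3 * √3 / 2))
        ≤ unif E3 {y | kap η y.1 ∈ S} ∧ X ∈ avoid n {y | kap η y.1 ∈ S} := by
  classical
  obtain ⟨c, hc⟩ := hX
  have hl : 0 < k * η := by positivity
  let J : Fin 3 → Set (Fin n) := fun i => if ∃ j, c j = i then {j | c j = i} else {⟨0, hn⟩}
  have Jne : ∀ i, (J i).Nonempty := by
    intro i
    by_cases h : ∃ j, c j = i
    · simp only [J, h, if_true]; exact h
    · simp [J, h]
  have Jc : ∀ j, j ∈ J (c j) := by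
    intro j
    have : ∃ j', c j' = c j := ⟨j, rfl⟩
    simp [J, this]
  have Jd : ∀ i, ∀ j ∈ J i, ∀ j' ∈ J i, c j = c j' := by
    intro i j hj j' hj'
    by_cases h : ∃ j, c j = i
    · simp only [J, h, if_true, mem_ofPred_eq] at hj hj'
      rw [hj, hj']
    · simp only [J, h, if_false, mem_singleton_iff] at hj hj'
      rw [hj, hj']
  let C : Fin 3 → Set S2 := fun i => ⋃ j ∈ J i, {y | ‖y.1 - (X j).1‖ ≤ 2 * η}
  obtain ⟨q, hq⟩ := hole C
    (fun i => (toFinite (J i)).isClosed_biUnion fun j _ =>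
      isClosed_le (by fun_prop) continuous_const)
    (fun i => by
      obtain ⟨j, hj⟩ := Jne i
      exact ⟨X j, mem_biUnion hj (by simp; positivity)⟩) hl hh hlh (by
      intro i y hy y' hy'
      obtain ⟨j, hj, h1⟩ := mem_iUnion₂.mp hy
      obtain ⟨j', hj', h2⟩ := mem_iUnion₂.mp hy'
      have h3 := hc j j' (Jd i j hj j' hj')
      have e : (X j).1 + (X j').1 = (y.1 + y'.1) - (y.1 - (X j).1) - (y'.1 - (X j').1) := by abel
      rw [e] at h3
      have h4 := norm_sub_le ((y.1 + y'.1) - (y.1 - (X j).1)) (y'.1 - (X j').1)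
      have h5 := norm_sub_le (y.1 + y'.1) (y.1 - (X j).1)
      simp only [mem_ofPred_eq] at h1 h2
      linarith)
  obtain ⟨a, b, ha, hb, hab⟩ := exists_ctr q
  obtain ⟨a1, a2⟩ := floor_mem hl ha
  obtain ⟨b1, b2⟩ := floor_mem hl hb
  refine ⟨_, a1, _, b1, (box η (3 * k) (ctr (⌊a / (k * η)⌋ * (k * η)) (⌊b / (k * η)⌋ * (k * η))) ∪
    box η (3 * k) (-ctr (⌊a / (k * η)⌋ * (k * η)) (⌊b / (k * η)⌋ * (k * η)))).filter
      fun z => ∀ j, kap η (X j).1 ≠ z, Finset.filter_subset _ _, hq.trans (measure_mono ?_), ?_⟩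
  · rintro y ⟨h1, h2⟩
    refine Finset.mem_filter.mpr ⟨?_, fun j hj => h1 (c j) ?_⟩
    · rcases h2 with h2 | h2
      · refine Finset.mem_union_left _ (mem_box hη fun j => ?_)
        have k1 := ctr_lip a2 b2 j
        have k2 := (coord_le (y.1 - q.1) j).trans h2
        rw [PiLp.sub_apply, hab] at k2
        push_cast
        linarith [abs_sub_le (y.1 j) (ctr a b j)
          (ctr (⌊a / (k * η)⌋ * (k * η)) (⌊b / (k * η)⌋ * (k * η)) j)]
      · refine Finset.mem_union_right _ (mem_box hη fun j => ?_)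
        have k1 := ctr_lip a2 b2 j
        have k2 := (coord_le (y.1 + q.1) j).trans h2
        rw [PiLp.add_apply, hab] at k2
        rw [abs_le] at k1 k2 ⊢
        simp only [Pi.neg_apply]
        push_cast
        constructor <;> linarith [k1.1, k1.2, k2.1, k2.2]
    · exact mem_biUnion (Jc j) (kap_near hη hj.symm)
  · intro j hj
    exact (Finset.mem_filter.mp hj).2 j rfl

theorem col3_bound {n : ℕ} (hn : 0 < n) {η h : ℝ} (hη : 0 < η) {k : ℕ} (hk : 0 < k)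
    (hh : 0 ≤ h) (hlh : h ^ 2 * (1 + (k * η) ^ 2) ≤ 1) :
    PP n (Col3 n ((k + 4) * η)) ≤ ENNReal.ofReal ((2 * (⌈4 / (k * η)⌉₊ : ℝ) + 1) ^ 2 *
      2 ^ (2 * (6 * k + 1) ^ 3) * exp (-((k * η) ^ 2 * h ^ 3 / (4 * π) * (3 * √3 / 2)) * n)) := by
  classical
  set p := (k * η) ^ 2 * h ^ 3 / (4 * π) * (3 * √3 / 2) with hp
  have p0 : 0 ≤ p := by positivity
  set M := Finset.Icc (-(⌈4 / (k * η)⌉₊ : ℤ)) ⌈4 / (k * η)⌉₊ with hM
  let K : ℤ × ℤ → Finset (Fin 3 → ℤ) := fun ab =>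
    box η (3 * k) (ctr (ab.1 * (k * η)) (ab.2 * (k * η))) ∪
        box η (3 * k) (-ctr (ab.1 * (k * η)) (ab.2 * (k * η)))
  let F : ℤ × ℤ → Finset (Finset (Fin 3 → ℤ)) := fun ab =>
    (K ab).powerset.filter fun S => ENNReal.ofReal p ≤ unif E3 {y | kap η y.1 ∈ S}
  have sub : Col3 n ((k + 4) * η) ⊆
      ⋃ ab ∈ M ×ˢ M, ⋃ S ∈ F ab, avoid n {y | kap η y.1 ∈ S} := by
    intro X hX
    obtain ⟨a, ha, b, hb, S, hS, h1, h3⟩ := col3_cover hn hη hk hh hlh X hX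
    refine mem_iUnion₂.mpr ⟨(a, b), Finset.mem_product.mpr ⟨ha, hb⟩, mem_iUnion₂.mpr ⟨S, ?_, h3⟩⟩
    exact Finset.mem_filter.mpr ⟨Finset.mem_powerset.mpr hS, h1⟩
  have one : ∀ ab, ∀ S ∈ F ab, PP n (avoid n {y | kap η y.1 ∈ S})
      ≤ ENNReal.ofReal (exp (-p * n)) := by
    intro ab S hS
    have hm : MeasurableSet {y : S2 | kap η y.1 ∈ S} :=
      kap_meas η (Finset.measurableSet S)
    rw [PP_avoid n hm, mul_comm, exp_nat_mul, ENNReal.ofReal_pow (exp_pos _).le]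
    refine pow_le_pow_left' ?_ n
    refine (tsub_le_tsub_left (Finset.mem_filter.mp hS).2 1).trans ?_
    rw [← ENNReal.ofReal_one, ← ENNReal.ofReal_sub _ p0]
    exact ENNReal.ofReal_le_ofReal (by linarith [add_one_le_exp (-p)])
  have cardF : ∀ ab, (F ab).card ≤ 2 ^ (2 * (6 * k + 1) ^ 3) := by
    intro ab
    refine (Finset.card_filter_le _ _).trans ?_
    rw [Finset.card_powerset]
    refine Nat.pow_le_pow_right two_pos ((Finset.card_union_le _ _).trans ?_)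
    rw [box_card, box_card]
    exact le_of_eq (by ring)
  have cardM : M.card = 2 * ⌈4 / (k * η)⌉₊ + 1 := by
    rw [hM, Int.card_Icc]; omega
  refine (measure_mono sub).trans ((measure_biUnion_finset_le _ _).trans ?_)
  have two : ∀ ab ∈ M ×ˢ M, PP n (⋃ S ∈ F ab, avoid n {y | kap η y.1 ∈ S})
      ≤ ((2 ^ (2 * (6 * k + 1) ^ 3) : ℕ) : ENNReal) * ENNReal.ofReal (exp (-p * n)) := by
    intro ab _
    refine (measure_biUnion_finset_le _ _).trans ((Finset.sum_le_card_nsmul _ _ _ (one ab)).trans ?_)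
    rw [nsmul_eq_mul]
    exact mul_le_mul_left (Nat.cast_le.mpr (cardF ab)) _
  refine (Finset.sum_le_card_nsmul _ _ _ two).trans (le_of_eq ?_)
  rw [nsmul_eq_mul, Finset.card_product, cardM, ← mul_assoc, ← Nat.cast_mul,
    ← ENNReal.ofReal_natCast, ← ENNReal.ofReal_mul (by positivity)]
  congr 1
  push_cast
  ring

end Pool.Agent.Lib.MP_f73bef_pr
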